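import Pool.Agent.N509.TX.Fg
import Pool.Agent.N509.TK.Rk

/-!
# Trees whose edge groups are commensurable with an almost central cyclic group
-/

set_option autoImplicit false

namespace Pool.Agent.N509.TX

open SimpleGraph
open Pool.Agent.Y110.FJ
open Pool.Agent.N509.TK
open Pool.Agent.R941.FJ (C_equiv C_le C_cyc mem_sup_normal)

variable {C : ∀ (G : Type) [Group G], Prop}

theorem exists_common {I : Type} (s : Finset I) (P : I → ℤ → Prop)
    (hP : ∀ i ∈ s, ∃ n : ℤ, n ≠ 0 ∧ P i n) (hmul : ∀ i n k, k ≠ 0 → P i n → P i (n * k)) :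
    ∃ N : ℤ, N ≠ 0 ∧ ∀ i ∈ s, P i N := by
  classical
  induction s using Finset.induction_on with
  | empty => exact ⟨1, one_ne_zero, fun i hi => absurd hi (by simp)⟩
  | insert a s _ ih =>
    obtain ⟨N, hN, h⟩ := ih fun i hi => hP i (Finset.mem_insert_of_mem hi)
    obtain ⟨n, hn, hn'⟩ := hP a (Finset.mem_insert_self _ _)
    refine ⟨N * n, mul_ne_zero hN hn, fun i hi => ?_⟩
    rcases Finset.mem_insert.1 hi with rfl | hi
    · rw [mul_comm]
      exact hmul _ _ _ hN hn'
    · exact hmul _ _ _ hn (h i hi)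

theorem relIndex_zpow {G : Type} [Group G] (z : G) (k : ℤ) (hk : k ≠ 0) (E : Subgroup G)
    (h : (Subgroup.zpowers z).relIndex E ≠ 0) : (Subgroup.zpowers (z ^ k)).relIndex E ≠ 0 := by
  refine Subgroup.relIndex_ne_zero_trans ?_ h
  -- the index of `⟨z ^ k⟩` in `⟨z⟩`
  have h1 : Finite (↥(Subgroup.zpowers z) ⧸ (Subgroup.zpowers (z ^ k)).subgroupOf (Subgroup.zpowers z)) := by
    let m : ℕ := k.natAbs
    have hm : 0 < m := Int.natAbs_pos.2 hk
    let F : Fin m → ↥(Subgroup.zpowers z) ⧸ (Subgroup.zpowers (z ^ k)).subgroupOf (Subgroup.zpowers z) :=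
      fun i => QuotientGroup.mk ⟨z ^ (i : ℤ), (i : ℤ), rfl⟩
    refine Finite.of_surjective F fun q => ?_
    obtain ⟨⟨_, i, rfl⟩, rfl⟩ := QuotientGroup.mk_surjective q
    have h2 : 0 ≤ i % k := Int.emod_nonneg _ hk
    have h3 : i % k < |k| := Int.emod_lt_abs _ hk
    refine ⟨⟨(i % k).toNat, ?_⟩, ?_⟩
    · have h4 : |k| = (m : ℤ) := Int.abs_eq_natAbs k
      omega
    · refine QuotientGroup.eq.2 ?_
      rw [Subgroup.mem_subgroupOf]
      refine ⟨i / k, ?_⟩
      show (z ^ k) ^ (i / k) = (z ^ (((i % k).toNat : ℕ) : ℤ))⁻¹ * z ^ i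
      rw [Int.toNat_of_nonneg h2, ← zpow_mul, ← zpow_neg, ← zpow_add]
      congr 1
      have := Int.emod_add_mul_ediv i k
      omega
  rw [Subgroup.relIndex]
  exact (Subgroup.finiteIndex_iff_finite_quotient.2 h1).index_ne_zero

variable {G V : Type} [Group G] [MulAction G V] {T : SimpleGraph V}

theorem exists_nbr (hT : T.IsTree) {x y : V} (h : T.Adj x y) (w : V) : ∃ w', T.Adj w w' := by
  by_cases hw : w = x
  · subst hw
    exact ⟨y, h⟩
  · obtain ⟨p⟩ := hT.connected.preconnected w x
    cases p with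
    | nil => exact absurd rfl hw
    | cons h' _ => exact ⟨_, h'⟩

/-- **an almost central cyclic subgroup which is commensurable with the edge groups** -/
theorem bal0 (hC : ClosedE C) (hM : ∀ (G : Type) [Group G], derivedSeries G 2 = ⊥ → C G)
    (hA : AcylF C) (hT : T.IsTree)
    (hact : ∀ (g : G) (u v : V), T.Adj u v → T.Adj (g • u) (g • v)) (z : G)
    (hcomm : ∀ g : G, ∃ n : ℤ, n ≠ 0 ∧ g * z ^ n = z ^ n * g)
    (hE : ∀ u v : V, T.Adj u v → ∃ n : ℤ, n ≠ 0 ∧ z ^ n • u = u ∧ z ^ n • v = v ∧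
      (Subgroup.zpowers (z ^ n)).relIndex (MulAction.stabilizer G u ⊓ MulAction.stabilizer G v) ≠ 0)
    (hV : ∀ v : V, C ↥(MulAction.stabilizer G v))
    (hd : ∀ v u : V, T.Adj v u → ∀ n : ℤ, n ≠ 0 → z ^ n • v = v → z ^ n • u = u →
      ∀ S : Subgroup G, (∀ g ∈ S, g • v = v ∧ g * z ^ n = z ^ n * g) → z ^ n ∈ S →
      ∃ (Q : Type) (_ : Group Q) (f : S →* Q), C Q ∧
        ∀ s : S, f s = 1 ↔ (s : G) ∈ Subgroup.zpowers (z ^ n)) : C G := by
  classical
  refine of_fg_mem hC z fun H hfg hzH => ?_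
  obtain ⟨o⟩ := hT.connected.nonempty
  obtain ⟨W, _, T', ι, Φ, hW, ⟨w0, hw0⟩, hΦ, hΦ'⟩ := fg_subtree (G := H) hT
    (fun g u v h => hact g u v h) hfg o
  by_cases hne : ∃ x y, T'.Adj x y
  swap
  · -- one vertex
    have h1 : ∀ w : W, w = w0 := by
      intro w
      obtain ⟨p⟩ := hW.tree.connected.preconnected w w0
      cases p with
      | nil => rfl
      | cons h' _ => exact absurd ⟨_, _, h'⟩ hne
    have h2 : ∀ h : H, (h : G) • o = o := by
      intro h
      have h3 := h1 (h • w0)
      have h4 := hW.eqv h w0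
      rw [h3, hw0] at h4
      exact h4.symm
    refine hC.base.of_injective _ _ (H.subtype.codRestrict (MulAction.stabilizer G o) h2) ?_ (hV o)
    intro a b hab
    have h5 := congrArg Subtype.val hab
    exact Subtype.ext h5
  obtain ⟨x0, y0, hxy0⟩ := hne
  -- the exponent
  obtain ⟨S, hS⟩ := (Group.fg_def.1 hfg)
  obtain ⟨N1, hN1, hN1'⟩ := exists_common S (fun g n => (g : G) * z ^ n = z ^ n * g)
    (fun g _ => hcomm g) (by
      intro g n k _ h
      have h1 : Commute (g : G) (z ^ n) := h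
      show (g : G) * z ^ (n * k) = z ^ (n * k) * g
      rw [zpow_mul]
      exact h1.zpow_right k)
  obtain ⟨N2, hN2, hN2'⟩ := exists_common Φ (fun e n => z ^ n • e.1 = e.1 ∧ z ^ n • e.2 = e.2 ∧
      (Subgroup.zpowers (z ^ n)).relIndex
        (MulAction.stabilizer G e.1 ⊓ MulAction.stabilizer G e.2) ≠ 0)
    (fun e he => hE e.1 e.2 (hΦ e he)) (by
      rintro e n k hk ⟨h1, h2, h3⟩
      refine ⟨?_, ?_, ?_⟩
      · rw [zpow_mul]
        exact zpow_fix h1 k
      · rw [zpow_mul]
        exact zpow_fix h2 k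
      · rw [zpow_mul]
        exact relIndex_zpow _ k hk _ h3)
  obtain ⟨N, hN⟩ : ∃ N : ℤ, N = N1 * N2 := ⟨_, rfl⟩
  have hN0 : N ≠ 0 := hN ▸ mul_ne_zero hN1 hN2
  obtain ⟨c, hc⟩ : ∃ c : H, c = ⟨z, hzH⟩ ^ N := ⟨_, rfl⟩
  have hcz : (c : G) = z ^ N := by
    rw [hc]
    rfl
  have hcS : ∀ g ∈ S, g * c = c * g := by
    intro g hg
    have h1 : Commute (g : G) (z ^ N1) := hN1' g hg
    apply Subtype.ext
    show (g : G) * (c : G) = (c : G) * g
    rw [hcz, hN, zpow_mul]
    exact h1.zpow_right N2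
  have hcc : ∀ g : H, g * c = c * g := by
    intro g
    have h1 : g ∈ Subgroup.centralizer {c} := by
      have h2 : (⊤ : Subgroup H) ≤ Subgroup.centralizer {c} := by
        rw [← hS, Subgroup.closure_le]
        intro s hs
        exact Subgroup.mem_centralizer_singleton_iff.2 (hcS s hs)
      exact h2 (Subgroup.mem_top g)
    exact Subgroup.mem_centralizer_singleton_iff.1 h1
  have hcΦ : ∀ e ∈ Φ, (c : G) • e.1 = e.1 ∧ (c : G) • e.2 = e.2 ∧
      (Subgroup.zpowers (c : G)).relIndex
        (MulAction.stabilizer G e.1 ⊓ MulAction.stabilizer G e.2) ≠ 0 := by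
    intro e he
    obtain ⟨h1, h2, h3⟩ := hN2' e he
    rw [hcz, hN, mul_comm, zpow_mul]
    exact ⟨zpow_fix h1 _, zpow_fix h2 _, relIndex_zpow _ _ hN1 _ h3⟩
  have hcE : ∀ x y : W, T'.Adj x y → (c : G) • ι x = ι x ∧ (c : G) • ι y = ι y := by
    intro x y hxy
    obtain ⟨h, hh⟩ := hΦ' x y hxy
    have key : ∀ v : V, (c : G) • h • v = h • v → (c : G) • v = v := by
      intro v hv
      have h1 : (c : G) • (h : G) • v = (h : G) • v := hv
      rw [← mul_smul] at h1
      have h2 : (c : G) * (h : G) = h * c := (congrArg Subtype.val (hcc h)).symm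
      rw [h2, mul_smul] at h1
      exact smul_left_cancel _ h1
    rcases hh with hh | hh
    · exact ⟨key _ (hcΦ _ hh).1, key _ (hcΦ _ hh).2.1⟩
    · exact ⟨key _ (hcΦ _ hh).2.1, key _ (hcΦ _ hh).1⟩
  have hcW : ∀ w : W, c • w = w := by
    intro w
    obtain ⟨w', hw'⟩ := exists_nbr hW.tree hxy0 w
    exact hW.fix.2 (hcE w w' hw').1
  obtain ⟨Z, hZ⟩ : ∃ Z : Subgroup H, Z = Subgroup.zpowers c := ⟨_, rfl⟩
  have hZc : ∀ a ∈ Z, ∀ g : H, g * a = a * g := by
    rw [hZ]
    rintro _ ⟨i, rfl⟩ g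
    exact (show Commute g c from hcc g).zpow_right i
  have hZn : Z.Normal := ⟨fun a ha g => by
    rw [hZc a ha g, mul_inv_cancel_right]
    exact ha⟩
  have hZW : ∀ a ∈ Z, ∀ w : W, a • w = w := by
    rw [hZ]
    rintro _ ⟨i, rfl⟩ w
    exact zpow_fix (hcW w) i
  -- the quotient
  let ρ : H ⧸ Z →* Equiv.Perm W := QuotientGroup.lift Z (MulAction.toPermHom H W) (by
    intro a ha
    refine Equiv.ext fun w => ?_
    exact hZW a ha w)
  let _ : MulAction (H ⧸ Z) W := MulAction.compHom W ρ
  have hsm : ∀ (h : H) (w : W), ((h : H ⧸ Z)) • w = h • w := fun h w => rfl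
  have hfgQ : Group.FG (H ⧸ Z) := Group.fg_of_surjective (QuotientGroup.mk'_surjective Z)
  have hQ : C (H ⧸ Z) := by
    refine finedge (G := H ⧸ Z) (V := W) (T := T') hC hA hfgQ hW.tree ?_
      (Φ.sup fun e => (Subgroup.zpowers (c : G)).relIndex
        (MulAction.stabilizer G e.1 ⊓ MulAction.stabilizer G e.2)) ?_ ?_
    · intro q u v h
      obtain ⟨g, rfl⟩ := QuotientGroup.mk_surjective q
      rw [hsm, hsm]
      exact hW.act g u v h
    · intro x y hxy F hF
      obtain ⟨h, hh⟩ := hΦ' x y hxy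
      have main : ∀ e ∈ Φ, (∀ g : H, g • x = x → g • y = y →
          (h : G) * g * (h : G)⁻¹ ∈ MulAction.stabilizer G e.1 ⊓ MulAction.stabilizer G e.2) →
          F.card ≤ (Subgroup.zpowers (c : G)).relIndex
            (MulAction.stabilizer G e.1 ⊓ MulAction.stabilizer G e.2) := by
        intro e he hconj
        obtain ⟨E, hEe⟩ : ∃ E : Subgroup G, E = MulAction.stabilizer G e.1 ⊓
          MulAction.stabilizer G e.2 := ⟨_, rfl⟩
        have hrel := (hcΦ e he).2.2
        rw [← hEe] at hconj hrel ⊢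
        have hfi : ((Subgroup.zpowers (c : G)).subgroupOf E).FiniteIndex := ⟨hrel⟩
        have hfin : Finite (E ⧸ (Subgroup.zpowers (c : G)).subgroupOf E) :=
          Subgroup.finiteIndex_iff_finite_quotient.1 hfi
        have hex : ∀ q : H ⧸ Z, ∃ g : H, (g : H ⧸ Z) = q := QuotientGroup.mk_surjective
        choose rep hrep using hex
        have hmem : ∀ q ∈ F, (h : G) * rep q * (h : G)⁻¹ ∈ E := by
          intro q hq
          obtain ⟨h1, h2⟩ := hF q hq
          rw [← hrep q] at h1 h2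
          exact hconj _ h1 h2
        let φ : H ⧸ Z → E ⧸ (Subgroup.zpowers (c : G)).subgroupOf E := fun q =>
          if hq : (h : G) * rep q * (h : G)⁻¹ ∈ E then QuotientGroup.mk ⟨_, hq⟩ else QuotientGroup.mk 1
        have hinj : Set.InjOn φ F := by
          intro q hq q' hq' hφ
          have h1 := hmem q hq
          have h2 := hmem q' hq'
          simp only [φ, dif_pos h1, dif_pos h2] at hφ
          have h3 := QuotientGroup.eq.1 hφ
          rw [Subgroup.mem_subgroupOf] at h3
          obtain ⟨i, hi⟩ := h3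
          have h4 : (c : G) ^ i = (h : G) * ((rep q : G)⁻¹ * rep q') * (h : G)⁻¹ := by
            refine hi.trans ?_
            show ((h : G) * rep q * (h : G)⁻¹)⁻¹ * ((h : G) * rep q' * (h : G)⁻¹) = _
            group
          have h5 : (rep q)⁻¹ * rep q' = c ^ i := by
            apply Subtype.ext
            show (rep q : G)⁻¹ * rep q' = (c : G) ^ i
            have h6 : (h : G) * (c : G) ^ i = (c : G) ^ i * h :=
              (show Commute (h : G) (c : G) from congrArg Subtype.val (hcc h)).zpow_right i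
            have h7 : (rep q : G)⁻¹ * rep q' = (h : G)⁻¹ * (c : G) ^ i * h := by
              rw [h4]
              group
            rw [h7, mul_assoc, ← h6, inv_mul_cancel_left]
          rw [← hrep q, ← hrep q']
          refine QuotientGroup.eq.2 ?_
          rw [h5, hZ]
          exact ⟨i, rfl⟩
        have := Fintype.ofFinite (E ⧸ (Subgroup.zpowers (c : G)).subgroupOf E)
        have h1 := Finset.card_le_card_of_injOn (s := F)
          (t := (Finset.univ : Finset (E ⧸ (Subgroup.zpowers (c : G)).subgroupOf E))) φ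
          (fun _ _ => Finset.mem_coe.2 (Finset.mem_univ _)) hinj
        rw [Finset.card_univ, ← Nat.card_eq_fintype_card] at h1
        exact h1
      have hcj : ∀ (g : H) (w : W), g • w = w → ((h : G) * g * (h : G)⁻¹) • h • ι w = h • ι w := by
        intro g w hg
        have h1 : (g : G) • ι w = ι w := by
          have := hW.eqv g w
          rw [hg] at this
          exact this.symm
        show ((h : G) * g * (h : G)⁻¹) • (h : G) • ι w = (h : G) • ι w
        rw [mul_smul, inv_smul_smul, mul_smul, h1]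
      rcases hh with hh | hh
      · exact (main _ hh fun g hx hy => ⟨hcj g x hx, hcj g y hy⟩).trans (Finset.le_sup
          (f := fun e : V × V => (Subgroup.zpowers (c : G)).relIndex
            (MulAction.stabilizer G e.1 ⊓ MulAction.stabilizer G e.2)) hh)
      · exact (main _ hh fun g hx hy => ⟨hcj g y hy, hcj g x hx⟩).trans (Finset.le_sup
          (f := fun e : V × V => (Subgroup.zpowers (c : G)).relIndex
            (MulAction.stabilizer G e.1 ⊓ MulAction.stabilizer G e.2)) hh)
    · intro w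
      obtain ⟨w', hw'⟩ := exists_nbr hW.tree hxy0 w
      obtain ⟨A, hA'⟩ : ∃ A : Subgroup H, A = MulAction.stabilizer H w := ⟨_, rfl⟩
      have hfixw := hcE w w' hw'
      rw [hcz] at hfixw
      obtain ⟨Q', _, f, hQ', hf⟩ := hd (ι w) (ι w') (hW.adj _ _ hw') N hN0 hfixw.1 hfixw.2
        (A.map H.subtype) (by
          rintro _ ⟨g, hg, rfl⟩
          rw [hA'] at hg
          refine ⟨hW.fix.1 hg, ?_⟩
          rw [← hcz]
          exact congrArg Subtype.val (hcc g)) (by
          refine ⟨c, ?_, hcz⟩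
          rw [hA']
          exact hcW w)
      let f' : A →* Q' := f.comp (H.subtype.subgroupMap A)
      have hf' : ∀ a : A, f' a = 1 ↔ (a : H) ∈ Z := by
        intro a
        refine (hf _).trans ?_
        rw [hZ, ← hcz]
        constructor
        · rintro ⟨i, hi⟩
          exact ⟨i, Subtype.ext hi⟩
        · rintro ⟨i, hi⟩
          exact ⟨i, congrArg Subtype.val hi⟩
      let g' : A →* MulAction.stabilizer (H ⧸ Z) w :=
        ((QuotientGroup.mk' Z).comp A.subtype).codRestrict _ (by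
          intro a
          exact (SetLike.ext_iff.1 hA' _).1 a.2)
      have hg's : Function.Surjective g' := by
        rintro ⟨q, hq⟩
        obtain ⟨h, rfl⟩ := QuotientGroup.mk_surjective q
        have h1 : h ∈ A := by
          rw [hA']
          exact hq
        exact ⟨⟨h, h1⟩, rfl⟩
      have hker : g'.ker = f'.ker := by
        ext a
        rw [MonoidHom.mem_ker, MonoidHom.mem_ker, hf']
        constructor
        · intro h
          exact (QuotientGroup.eq_one_iff (a : H)).1 (congrArg Subtype.val h)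
        · intro h
          exact Subtype.ext ((QuotientGroup.eq_one_iff (a : H)).2 h)
      refine C_equiv hC.base (QuotientGroup.quotientKerEquivOfSurjective g' hg's).symm ?_
      refine C_equiv hC.base (QuotientGroup.quotientMulEquivOfEq hker) ?_
      exact hC.base.of_injective _ _ (QuotientGroup.kerLift f') (QuotientGroup.kerLift_injective _) hQ'
  refine Pool.Agent.Y529.FJ.t_ext C hC H Z ?_ hQ fun g _ => ?_
  · rw [hZ]
    exact C_cyc hC.base c
  · refine C_comm hM ?_
    rintro ⟨x, hx⟩ ⟨y, hy⟩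
    obtain ⟨a, ha, _, ⟨i, rfl⟩, rfl⟩ := mem_sup_normal.1 hx
    obtain ⟨b, hb, _, ⟨j, rfl⟩, rfl⟩ := mem_sup_normal.1 hy
    apply Subtype.ext
    show a * g ^ i * (b * g ^ j) = b * g ^ j * (a * g ^ i)
    have h1 : Commute a b := (hZc b hb a)
    have h2 : Commute a (g ^ j) := (hZc a ha (g ^ j)).symm
    have h3 : Commute (g ^ i) b := hZc b hb (g ^ i)
    have h4 : Commute (g ^ i) (g ^ j) := (Commute.refl g).zpow_zpow i j
    exact ((h1.mul_right h2).mul_left (h3.mul_right h4)).eq

end Pool.Agent.N509.TX
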