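import Pool.Agent.N509.TX.Vc

/-!
# Homomorphisms with finite kernels on the edge stabilizers
-/

set_option autoImplicit false

namespace Pool.Agent.N509.TX

open SimpleGraph
open Pool.Agent.Y110.FJ
open Pool.Agent.N509.TK
open Pool.Agent.R941.FJ (C_equiv C_le C_cyc mem_sup_normal)

variable {C : ∀ (G : Type) [Group G], Prop}

/-- central quotients of groups with a homomorphism to a virtually cyclic group -/
theorem cq (hC : ClosedE C) {G Q : Type} [Group G] [Group Q] (hQ : VC Q) (π : G →* Q)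
    (S : Subgroup G) (hS : C S) (t : G) (htS : t ∈ S) (hcen : ∀ g ∈ S, g * t = t * g)
    (ht : Inf (π t)) :
    ∃ (Q' : Type) (_ : Group Q') (f : S →* Q'), C Q' ∧ ∀ s : S, f s = 1 ↔ (s : G) ∈ Subgroup.zpowers t := by
  obtain ⟨Z, hZ⟩ : ∃ Z : Subgroup S, Z = Subgroup.zpowers ⟨t, htS⟩ := ⟨_, rfl⟩
  have hZc : ∀ a ∈ Z, ∀ g : S, g * a = a * g := by
    rw [hZ]
    rintro _ ⟨i, rfl⟩ g
    have h1 : Commute g ⟨t, htS⟩ := Subtype.ext (hcen g g.2)
    exact h1.zpow_right i
  have hZn : Z.Normal := ⟨fun a ha g => by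
    rw [hZc a ha g, mul_inv_cancel_right]
    exact ha⟩
  have hmem : ∀ s : S, s ∈ Z ↔ (s : G) ∈ Subgroup.zpowers t := by
    intro s
    rw [hZ]
    constructor
    · rintro ⟨i, hi⟩
      exact ⟨i, congrArg Subtype.val hi⟩
    · rintro ⟨i, hi⟩
      exact ⟨i, Subtype.ext hi⟩
  refine ⟨S ⧸ Z, inferInstance, QuotientGroup.mk' Z, ?_, fun s => ?_⟩
  swap
  · rw [← hmem]
    exact QuotientGroup.eq_one_iff s
  obtain ⟨S0, hS0⟩ : ∃ S0 : Subgroup S, S0 = (π.comp S.subtype).ker := ⟨_, rfl⟩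
  obtain ⟨f, hf⟩ : ∃ f : S0 →* S ⧸ Z, f = (QuotientGroup.mk' Z).comp S0.subtype := ⟨_, rfl⟩
  have hfi : Function.Injective f := by
    rw [injective_iff_map_eq_one]
    rintro ⟨a, ha⟩ h
    rw [hf] at h
    have h1 : a ∈ Z := (QuotientGroup.eq_one_iff a).1 h
    rw [hmem] at h1
    obtain ⟨i, hi⟩ := h1
    have hi' : t ^ i = (a : G) := hi
    have h2 : π (a : G) = 1 := by
      rw [hS0] at ha
      exact ha
    rw [← hi', map_zpow] at h2
    have h3 : i = 0 := by
      by_contra h4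
      exact ht i h4 h2
    apply Subtype.ext
    apply Subtype.ext
    show (a : G) = 1
    rw [← hi', h3, zpow_zero]
  have hI : C f.range := C_equiv hC.base (MonoidHom.ofInjective hfi).symm
    (hC.base.of_injective _ _ S0.subtype S0.subtype_injective hS)
  refine hC.base.finiteIndex (S ⧸ Z) f.range ⟨?_⟩ hI
  have h1 : (f.range.comap (QuotientGroup.mk' Z)).index = f.range.index :=
    Subgroup.index_comap_of_surjective _ (QuotientGroup.mk'_surjective Z)
  rw [← h1]
  have h2 : ((Subgroup.zpowers (π t)).comap (π.comp S.subtype)).index ≠ 0 := by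
    intro h3
    have h4 := Subgroup.relIndex_comap (Subgroup.zpowers (π t)) (π.comp S.subtype) ⊤
    rw [Subgroup.relIndex_top_right, h3] at h4
    have h5 := Subgroup.relIndex_eq_zero_of_le_right
      (le_top : (⊤ : Subgroup S).map (π.comp S.subtype) ≤ ⊤) h4.symm
    rw [Subgroup.relIndex_top_right] at h5
    exact hQ.index ht h5
  have h3 : (Subgroup.zpowers (π t)).comap (π.comp S.subtype) ≤
      f.range.comap (QuotientGroup.mk' Z) := by
    rintro s ⟨i, hi⟩
    have hi' : (π t) ^ i = π (s : G) := hi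
    have h4 : s * (⟨t, htS⟩ ^ i)⁻¹ ∈ S0 := by
      rw [hS0]
      show π ((s : G) * (t ^ i)⁻¹) = 1
      rw [map_mul, map_inv, map_zpow, hi', mul_inv_cancel]
    refine ⟨⟨_, h4⟩, ?_⟩
    rw [hf]
    refine QuotientGroup.eq.2 ?_
    rw [hZ]
    refine ⟨i, ?_⟩
    show (⟨t, htS⟩ : S) ^ i = (s * ((⟨t, htS⟩ : S) ^ i)⁻¹)⁻¹ * s
    group
  intro h4
  have h5 := Subgroup.index_dvd_of_le h3
  rw [h4] at h5
  exact h2 (Nat.eq_zero_of_zero_dvd h5)

/-- a group with a homomorphism to a virtually cyclic group which has finite kernels on the edge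
stabilizers -/
theorem mvc_fg (hC : ClosedE C) (hM : ∀ (G : Type) [Group G], derivedSeries G 2 = ⊥ → C G)
    (hA : AcylF C) {G V : Type} [Group G] [MulAction G V] {T : SimpleGraph V} (hfg : Group.FG G)
    (hT : T.IsTree) (hact : ∀ (g : G) (u v : V), T.Adj u v → T.Adj (g • u) (g • v))
    {Q : Type} [Group Q] (hQ : VC Q) (π : G →* Q)
    (hV : ∀ v : V, C ↥(MulAction.stabilizer G v)) (n : ℕ)
    (hE : ∀ u v : V, T.Adj u v → ∀ F : Finset G, (∀ g ∈ F, g • u = u ∧ g • v = v ∧ π g = 1) →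
      F.card ≤ n) : C G := by
  have hn : ∀ u v : V, T.Adj u v → ∀ F : Finset G,
      (∀ g ∈ F, g ∈ MulAction.stabilizer G u ⊓ MulAction.stabilizer G v ∧ π g = 1) → F.card ≤ n := by
    intro u v huv F hF
    exact hE u v huv F fun g hg => ⟨(hF g hg).1.1, (hF g hg).1.2, (hF g hg).2⟩
  have hEr : ∀ u v : V, T.Adj u v → Er G u v := by
    intro u v huv x y hxu hxv hyu hyv hx hy
    exact lift_comm π _ n (hn u v huv) hQ (x := x) (y := y) ⟨hxu, hxv⟩ ⟨hyu, hyv⟩ hx hy
  obtain ⟨B, hB⟩ := hQ.tors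
  refine cylI_fg hC hA hfg hT hact hEr (n * B) ?_ hV ?_
  · intro u v huv S hS F hF
    classical
    have h1 : (F.image π).card ≤ B := by
      refine hB (S.map π) ?_ _ ?_
      · rintro _ ⟨g, hg, rfl⟩
        obtain ⟨_, _, m, hm, h⟩ := hS g hg
        exact ⟨m, hm, by rw [← map_zpow, h, map_one]⟩
      · intro q hq
        obtain ⟨g, hg, rfl⟩ := Finset.mem_image.1 hq
        exact ⟨g, hF g hg, rfl⟩
    have h2 : F.card ≤ n * (F.image π).card := by
      refine Finset.card_le_mul_card_image F n ?_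
      intro q hq
      obtain ⟨g0, hg0, rfl⟩ := Finset.mem_image.1 hq
      have h3 := hE u v huv ((F.filter fun x => π x = π g0).image fun x => g0⁻¹ * x) (by
        intro g hg
        obtain ⟨x, hx, rfl⟩ := Finset.mem_image.1 hg
        obtain ⟨hx1, hx2⟩ := Finset.mem_filter.1 hx
        have h4 : g0⁻¹ * x ∈ S := mul_mem (inv_mem (hF _ hg0)) (hF _ hx1)
        refine ⟨(hS _ h4).1, (hS _ h4).2.1, ?_⟩
        rw [map_mul, map_inv, hx2, inv_mul_cancel])
      rwa [Finset.card_image_of_injective _ (mul_right_injective g0⁻¹)] at h3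
    exact h2.trans (Nat.mul_le_mul_left n h1)
  · intro v0 a0 h0 z hz hzv hza K hK hzK
    obtain ⟨hd1, hd2⟩ := cyl_data hEr hact h0 hz hzv hza
    have hπz : Inf (π z) := map_inf π _ n (hn v0 a0 h0) (x := z) ⟨hzv, hza⟩ hz
    refine bal_cyl hC hM hA hT hact (rI_LR hEr) _ K hK hzK ?_ ?_ hV ?_
    · intro g hg
      obtain ⟨m, k, hm, _, h⟩ := hd1 g (hK g hg)
      refine ⟨m, k, hm, ?_, h⟩
      refine hQ.bal (x := π z) (g := π g) hπz ?_
      rw [← map_zpow, ← map_zpow, ← map_mul, ← map_inv, ← map_mul, h]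
    · intro v u h hvu
      obtain ⟨k, hk, h1, h2⟩ := hd2 v u h hvu
      exact ⟨k, hk, h1, h2, lift_index π _ n (hn v u h) hQ ⟨h1, h2⟩ (hz.zpow hk)⟩
    · intro v u h hvu k hk h1 h2 S hS hzS
      refine cq hC hQ π S ?_ (z ^ k) hzS (fun g hg => (hS g hg).2) ?_
      · exact C_le hC.base (fun g hg => (hS g hg).1) (hV v)
      · rw [map_zpow]
        exact hπz.zpow hk

/-- uniform bounds -/
theorem uniform {G V W : Type} [Group G] [MulAction G V] [MulAction G W] {T : SimpleGraph V}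
    {T' : SimpleGraph W} {ι : W → V} {Φ : Finset (V × V)} (P : V → V → ℕ → Prop)
    (hΦ : ∀ e ∈ Φ, T.Adj e.1 e.2)
    (hΦ' : ∀ x y, T'.Adj x y → ∃ h : G, (h • ι x, h • ι y) ∈ Φ ∨ (h • ι y, h • ι x) ∈ Φ)
    (mono : ∀ u v n n', n ≤ n' → P u v n → P u v n') (sym : ∀ u v n, P u v n → P v u n)
    (inv : ∀ (h : G) u v n, P (h • u) (h • v) n → P u v n)
    (hP : ∀ u v, T.Adj u v → ∃ n, P u v n) : ∃ n, ∀ x y, T'.Adj x y → P (ι x) (ι y) n := by
  classical
  have h1 : ∃ n, ∀ e ∈ Φ, P e.1 e.2 n := by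
    clear hΦ'
    induction Φ using Finset.induction_on with
    | empty => exact ⟨0, fun e he => absurd he (by simp)⟩
    | insert a s _ ih =>
      obtain ⟨n, hn⟩ := ih fun e he => hΦ e (Finset.mem_insert_of_mem he)
      obtain ⟨m, hm⟩ := hP a.1 a.2 (hΦ a (Finset.mem_insert_self _ _))
      refine ⟨max m n, fun e he => ?_⟩
      rcases Finset.mem_insert.1 he with rfl | he
      · exact mono _ _ _ _ (le_max_left _ _) hm
      · exact mono _ _ _ _ (le_max_right _ _) (hn e he)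
  obtain ⟨n, hn⟩ := h1
  refine ⟨n, fun x y hxy => ?_⟩
  obtain ⟨h, hh⟩ := hΦ' x y hxy
  rcases hh with hh | hh
  · exact inv h _ _ n (hn _ hh)
  · exact sym _ _ _ (inv h _ _ n (hn _ hh))

/-- **homomorphisms with finite kernels on the edge stabilizers** -/
theorem kfin (hC : ClosedE C) (hM : ∀ (G : Type) [Group G], derivedSeries G 2 = ⊥ → C G)
    (hA : AcylF C) {G V : Type} [Group G] [MulAction G V] {T : SimpleGraph V}
    (hT : T.IsTree) (hact : ∀ (g : G) (u v : V), T.Adj u v → T.Adj (g • u) (g • v))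
    {P : Type} [Group P] (f : G →* P) (hP : C P)
    (hV : ∀ v : V, C ↥(MulAction.stabilizer G v))
    (hE : ∀ u v : V, T.Adj u v → ∃ n : ℕ, ∀ F : Finset G,
      (∀ g ∈ F, g • u = u ∧ g • v = v ∧ f g = 1) → F.card ≤ n) : C G := by
  classical
  refine hC.ext G f.range f.rangeRestrict f.rangeRestrict_surjective
    (hC.base.of_injective _ _ f.range.subtype f.range.subtype_injective hP) ?_
  rintro Q ⟨c, hcQ, hrel⟩
  have hQ : VC Q := by
    refine ⟨⟨c, hcQ⟩, ?_⟩
    have h1 : Subgroup.zpowers (⟨c, hcQ⟩ : Q) = (Subgroup.zpowers c).subgroupOf Q := by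
      ext g
      rw [Subgroup.mem_subgroupOf]
      constructor
      · rintro ⟨i, rfl⟩
        exact ⟨i, rfl⟩
      · rintro ⟨i, hi⟩
        exact ⟨i, Subtype.ext hi⟩
    rw [h1]
    exact hrel
  obtain ⟨M, hMM⟩ : ∃ M : Subgroup G, M = Q.comap f.rangeRestrict := ⟨_, rfl⟩
  rw [← hMM]
  obtain ⟨π, hπ⟩ : ∃ π : M →* Q, ∀ g : M, ((π g : f.range) : P) = f g := by
    refine ⟨(f.rangeRestrict.comp M.subtype).codRestrict Q fun g => ?_, fun g => rfl⟩
    have := g.2
    exact (SetLike.ext_iff.1 hMM _).1 g.2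
  refine of_fg hC fun H hfg => ?_
  obtain ⟨o⟩ := hT.connected.nonempty
  have hactH : ∀ (g : H) (u v : V), T.Adj u v → T.Adj (g • u) (g • v) :=
    fun g u v h => hact ((g : M) : G) u v h
  obtain ⟨W, _, T', ι, Φ, hW, _, hΦ, hΦ'⟩ := fg_subtree (G := H) hT hactH hfg o
  obtain ⟨n, hn⟩ := uniform (G := H) (T := T) (T' := T') (ι := ι) (Φ := Φ)
    (fun u v n => ∀ F : Finset H, (∀ g ∈ F, g • u = u ∧ g • v = v ∧ (π.comp H.subtype) g = 1) →
      F.card ≤ n) hΦ hΦ'
    (fun u v n n' hnn' h F hF => (h F hF).trans hnn')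
    (fun u v n h F hF => h F fun g hg => ⟨(hF g hg).2.1, (hF g hg).1, (hF g hg).2.2⟩)
    (fun h u v n hP F hF => by
      have h1 := hP (F.image fun x => h * x * h⁻¹) (by
        intro g hg
        obtain ⟨x, hx, rfl⟩ := Finset.mem_image.1 hg
        obtain ⟨h2, h3, h4⟩ := hF x hx
        exact ⟨conj_fix h h2, conj_fix h h3, by
          rw [map_mul, map_mul, h4, mul_one, ← map_mul, mul_inv_cancel, map_one]⟩)
      rwa [Finset.card_image_of_injective _ (by
        intro x y hxy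
        exact mul_left_cancel (mul_right_cancel hxy))] at h1)
    (fun u v huv => by
      obtain ⟨n, hn⟩ := hE u v huv
      refine ⟨n, fun F hF => ?_⟩
      have h1 := hn (F.image fun x : H => ((x : M) : G)) (by
        intro g hg
        obtain ⟨x, hx, rfl⟩ := Finset.mem_image.1 hg
        obtain ⟨h2, h3, h4⟩ := hF x hx
        refine ⟨h2, h3, ?_⟩
        rw [← hπ]
        have h5 : π (x : M) = 1 := h4
        rw [h5]
        rfl)
      rwa [Finset.card_image_of_injective _ (by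
        intro x y hxy
        exact Subtype.ext (Subtype.ext hxy))] at h1)
  refine mvc_fg (G := H) (V := W) (T := T') hC hM hA hfg hW.tree hW.act hQ (π.comp H.subtype) ?_ n ?_
  · intro w
    rw [hW.stab w]
    exact C_stab hC H (ι w) (C_stab hC M (ι w) (hV _))
  · intro x y hxy F hF
    refine hn x y hxy F fun g hg => ?_
    obtain ⟨h1, h2, h3⟩ := hF g hg
    exact ⟨hW.fix.1 h1, hW.fix.1 h2, h3⟩

end Pool.Agent.N509.TX
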