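import Pool.Agent.N509.TX.Rat

/-!
# Trees with virtually cyclic edge stabilizers
-/

set_option autoImplicit false

namespace Pool.Agent.N509.TX

open SimpleGraph
open Pool.Agent.Y110.FJ
open Pool.Agent.N509.TK
open Pool.Agent.R941.FJ (C_equiv C_le C_cyc mem_sup_normal)

/-- `x` is balanced, its powers which fix an edge have finite index in the stabilizer of the edge, and
central quotients by them of subgroups of the vertex stabilizers embed in groups of the class -/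
def Bl (C : ∀ (G : Type) [Group G], Prop) {G V : Type} [Group G] [MulAction G V] (T : SimpleGraph V)
    (x : G) : Prop :=
  (∀ (g : G) (m n : ℤ), m ≠ 0 → g * x ^ m * g⁻¹ = x ^ n → |m| = |n|) ∧
  ∀ v u : V, T.Adj v u → ∀ n : ℤ, n ≠ 0 → x ^ n • v = v → x ^ n • u = u →
    (Subgroup.zpowers (x ^ n)).relIndex (MulAction.stabilizer G v ⊓ MulAction.stabilizer G u) ≠ 0 ∧
    ∀ S : Subgroup G, (∀ g ∈ S, g • v = v ∧ g * x ^ n = x ^ n * g) → x ^ n ∈ S →
      ∃ (Q : Type) (_ : Group Q) (f : S →* Q), C Q ∧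
        ∀ s : S, f s = 1 ↔ (s : G) ∈ Subgroup.zpowers (x ^ n)

/-- the powers of `x` which fix an edge are detected in the first homology of the groups of elements of
`L` which fix a vertex of the edge and commute with powers of `x` -/
def Hd {G V : Type} [Group G] [MulAction G V] (T : SimpleGraph V) (L : Subgroup G) (x : G) : Prop :=
  ∀ v u : V, T.Adj v u → ∀ n : ℤ, n ≠ 0 → x ^ n • v = v → x ^ n • u = u → ∀ S : Subgroup G, S ≤ L →
    (∀ g ∈ S, g • v = v ∧ ∃ k : ℤ, k ≠ 0 ∧ g * x ^ k = x ^ k * g) → x ^ n ∉ ⁅S, S⁆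

section sub

variable {C : ∀ (G : Type) [Group G], Prop}
variable {G V : Type} [Group G] [MulAction G V] {T : SimpleGraph V} {H : Subgroup G} {W : Type}
  [MulAction H W] {T' : SimpleGraph W} {ι : W → V}

theorem zp_sub (x : H) (n : ℤ) : Subgroup.zpowers (x ^ n) =
    (Subgroup.zpowers ((x : G) ^ n)).comap H.subtype := by
  ext g
  rw [Subgroup.mem_comap]
  constructor
  · rintro ⟨i, rfl⟩
    exact ⟨i, rfl⟩
  · rintro ⟨i, hi⟩
    exact ⟨i, Subtype.ext hi⟩

theorem Bl.sub (h : STree H T T' ι) {x : H} (hx : Bl C T (x : G)) : Bl C T' x := by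
  obtain ⟨h1, h2⟩ := hx
  refine ⟨fun g m n hm hg => h1 g m n hm (congrArg Subtype.val hg), ?_⟩
  intro v u hvu n hn hv hu
  obtain ⟨h3, h4⟩ := h2 _ _ (h.adj _ _ hvu) n hn (h.fix.1 hv) (h.fix.1 hu)
  refine ⟨?_, ?_⟩
  · rw [zp_sub, Subgroup.relIndex_comap]
    refine fun h6 => h3 (Subgroup.relIndex_eq_zero_of_le_right ?_ h6)
    rintro _ ⟨g, ⟨hg1, hg2⟩, rfl⟩
    exact ⟨h.fix.1 hg1, h.fix.1 hg2⟩
  · intro S hS hxS
    obtain ⟨Q, _, f, hQ, hf⟩ := h4 (S.map H.subtype) (by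
      rintro _ ⟨g, hg, rfl⟩
      obtain ⟨h5, h6⟩ := hS g hg
      exact ⟨h.fix.1 h5, congrArg Subtype.val h6⟩) ⟨_, hxS, rfl⟩
    refine ⟨Q, _, f.comp (H.subtype.subgroupMap S), hQ, fun s => ?_⟩
    refine (hf _).trans ?_
    constructor
    · rintro ⟨i, hi⟩
      exact ⟨i, Subtype.ext hi⟩
    · rintro ⟨i, hi⟩
      exact ⟨i, congrArg Subtype.val hi⟩

theorem Hd.sub (h : STree H T T' ι) {L : Subgroup G} {x : H} (hx : Hd T L (x : G)) :
    Hd T' (L.subgroupOf H) x := by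
  intro v u hvu n hn hv hu S hSL hS hxS
  refine hx _ _ (h.adj _ _ hvu) n hn (h.fix.1 hv) (h.fix.1 hu) (S.map H.subtype) ?_ ?_ ?_
  · rintro _ ⟨g, hg, rfl⟩
    exact hSL hg
  · rintro _ ⟨g, hg, rfl⟩
    obtain ⟨h5, k, hk, h6⟩ := hS g hg
    exact ⟨h.fix.1 h5, k, hk, congrArg Subtype.val h6⟩
  · rw [← Subgroup.map_commutator]
    exact ⟨_, hxS, rfl⟩

theorem Er.sub (h : STree H T T' ι) {u v : W} (he : Er G (ι u) (ι v)) : Er H u v := by
  intro x y hxu hxv hyu hyv hx hy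
  obtain ⟨a, b, ha, hb, hab⟩ := he x y (h.fix.1 hxu) (h.fix.1 hxv) (h.fix.1 hyu) (h.fix.1 hyv)
    (hx.map H.subtype H.subtype_injective) (hy.map H.subtype H.subtype_injective)
  exact ⟨a, b, ha, hb, Subtype.ext hab⟩

theorem Et.sub' {n : ℕ} {u v : V} (he : Et G n u v) : Et H n u v := by
  classical
  intro S hS F hF
  have h1 := he (S.map H.subtype) (by
    rintro _ ⟨g, hg, rfl⟩
    obtain ⟨h1, h2, m, hm, h3⟩ := hS g hg
    exact ⟨h1, h2, m, hm, congrArg Subtype.val h3⟩) (F.image H.subtype) (by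
    intro g hg
    obtain ⟨x, hx, rfl⟩ := Finset.mem_image.1 hg
    exact ⟨x, hF x hx, rfl⟩)
  rwa [Finset.card_image_of_injective _ H.subtype_injective] at h1

theorem Et.sub (h : STree H T T' ι) {n : ℕ} {u v : W} (he : Et H n (ι u) (ι v)) : Et H n u v := by
  intro S hS F hF
  refine he S (fun g hg => ?_) F hF
  obtain ⟨h1, h2, h3⟩ := hS g hg
  exact ⟨h.fix.1 h1, h.fix.1 h2, h3⟩

theorem Et.mono {n n' : ℕ} (hn : n ≤ n') {u v : V} (he : Et G n u v) : Et G n' u v :=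
  fun S hS F hF => (he S hS F hF).trans hn

theorem Et.symm {n : ℕ} {u v : V} (he : Et G n u v) : Et G n v u :=
  fun S hS F hF => he S (fun g hg => ⟨(hS g hg).2.1, (hS g hg).1, (hS g hg).2.2⟩) F hF

theorem Et.inv {n : ℕ} {u v : V} (h : G) (he : Et G n (h • u) (h • v)) : Et G n u v := by
  classical
  intro S hS F hF
  have h1 := he (S.map (MulAut.conj h).toMonoidHom) (by
    rintro _ ⟨g, hg, rfl⟩
    obtain ⟨h1, h2, m, hm, h3⟩ := hS g hg
    refine ⟨conj_fix h h1, conj_fix h h2, m, hm, ?_⟩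
    show (h * g * h⁻¹) ^ m = 1
    rw [conj_zpow, h3, mul_one, mul_inv_cancel]) (F.image fun x => h * x * h⁻¹) (by
    intro g hg
    obtain ⟨x, hx, rfl⟩ := Finset.mem_image.1 hg
    exact ⟨x, hF x hx, rfl⟩)
  rwa [Finset.card_image_of_injective _ (by
    intro x y hxy
    exact mul_left_cancel (mul_right_cancel hxy))] at h1

end sub

variable {C : ∀ (G : Type) [Group G], Prop}

/-- the elements which commute with powers of `z` form a normal subgroup with abelian quotient -/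
theorem LL_quot (hM : ∀ (G : Type) [Group G], derivedSeries G 2 = ⊥ → C G) {G : Type} [Group G]
    (K : Subgroup G) (z : G)
    (hcomm : ∀ g ∈ K, ∃ m k : ℤ, m ≠ 0 ∧ k ≠ 0 ∧ g * z ^ m * g⁻¹ = z ^ k) :
    ∃ _ : (LL K z).Normal, C (K ⧸ LL K z) := by
  have hLn : (LL K z).Normal := by
    refine ⟨?_⟩
    rintro l ⟨n, hn, hl⟩ g
    obtain ⟨m, k, hm, hk, h1⟩ := hcomm g g.2
    refine ⟨k * n, mul_ne_zero hk hn, ?_⟩
    have hl' : Commute (l : G) (z ^ (m * n)) := by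
      rw [mul_comm, zpow_mul]
      exact (show Commute (l : G) (z ^ n) from hl).zpow_right m
    have h2 : z ^ (k * n) = g * z ^ (m * n) * (g : G)⁻¹ := by
      rw [zpow_mul, ← h1, conj_zpow, ← zpow_mul]
    rw [h2]
    show (g : G) * l * (g : G)⁻¹ * (g * z ^ (m * n) * (g : G)⁻¹) =
      g * z ^ (m * n) * (g : G)⁻¹ * (g * l * (g : G)⁻¹)
    have h3 : (g : G) * l * (g : G)⁻¹ * (g * z ^ (m * n) * (g : G)⁻¹) =
      g * (l * z ^ (m * n)) * (g : G)⁻¹ := by group
    rw [h3, hl'.eq]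
    group
  refine ⟨hLn, C_comm hM ?_⟩
  intro p q
  obtain ⟨g, rfl⟩ := QuotientGroup.mk_surjective p
  obtain ⟨h, rfl⟩ := QuotientGroup.mk_surjective q
  obtain ⟨m, k, hm, hk, h1⟩ := hcomm g g.2
  obtain ⟨m', k', hm', hk', h2⟩ := hcomm h h.2
  rw [← QuotientGroup.mk_mul, ← QuotientGroup.mk_mul]
  refine QuotientGroup.eq.2 ⟨m * m', mul_ne_zero hm hm', ?_⟩
  have e1 : ∀ n : ℤ, (g : G) * z ^ (m * n) = z ^ (k * n) * g := by
    intro n
    rw [zpow_mul, zpow_mul, ← h1, conj_zpow]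
    group
  have e2 : ∀ n : ℤ, (h : G) * z ^ (m' * n) = z ^ (k' * n) * h := by
    intro n
    rw [zpow_mul, zpow_mul, ← h2, conj_zpow]
    group
  have e3 : (g : G) * h * z ^ (m * m') = z ^ (k * k') * (g * h) := by
    rw [mul_assoc, mul_comm m m', e2, ← mul_assoc, mul_comm k' m, e1, mul_assoc]
  have e4 : (h : G) * g * z ^ (m * m') = z ^ (k * k') * (h * g) := by
    rw [mul_assoc, e1, ← mul_assoc, mul_comm k m', e2, mul_assoc, mul_comm k' k]
  show ((g : G) * h)⁻¹ * (h * g) * z ^ (m * m') = z ^ (m * m') * (((g : G) * h)⁻¹ * (h * g))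
  have e5 : z ^ (m * m') * ((g : G) * h)⁻¹ = ((g : G) * h)⁻¹ * z ^ (k * k') := by
    rw [mul_inv_eq_iff_eq_mul, mul_assoc, ← e3, inv_mul_cancel_left]
  rw [← mul_assoc (z ^ (m * m')), e5, mul_assoc, e4, mul_assoc]

/-- intersections of kernels -/
theorem C_inf (hC : ClosedE C) {K : Type} [Group K] (A B : Subgroup K) [A.Normal] [B.Normal]
    (hA : C (K ⧸ A)) (hB : C (K ⧸ B)) : C (K ⧸ (A ⊓ B)) := by
  let F : K →* (K ⧸ A) × (K ⧸ B) := (QuotientGroup.mk' A).prod (QuotientGroup.mk' B)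
  have hF : ∀ g, F g = 1 ↔ g ∈ A ⊓ B := by
    intro g
    constructor
    · intro h
      exact ⟨(QuotientGroup.eq_one_iff g).1 (congrArg Prod.fst h),
        (QuotientGroup.eq_one_iff g).1 (congrArg Prod.snd h)⟩
    · rintro ⟨h1, h2⟩
      exact Prod.ext ((QuotientGroup.eq_one_iff g).2 h1) ((QuotientGroup.eq_one_iff g).2 h2)
  refine hC.base.of_injective _ _ (QuotientGroup.lift _ F fun g hg => (hF g).2 hg) ?_
    (hC.base.prod _ _ hA hB)
  rw [injective_iff_map_eq_one]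
  intro q hq
  obtain ⟨g, rfl⟩ := QuotientGroup.mk_surjective q
  exact (QuotientGroup.eq_one_iff g).2 ((hF g).1 hq)

/-- quotients of subgroups -/
theorem C_subq (hC : ClosedE C) {G : Type} [Group G] (L : Subgroup G) [L.Normal] (hQ : C (G ⧸ L))
    (H : Subgroup G) : C (H ⧸ L.subgroupOf H) := by
  let f : H →* G ⧸ L := (QuotientGroup.mk' L).comp H.subtype
  have hf : ∀ g ∈ L.subgroupOf H, f g = 1 := fun g hg => (QuotientGroup.eq_one_iff (g : G)).2 hg
  refine hC.base.of_injective _ _ (QuotientGroup.lift _ f hf) ?_ hQ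
  rw [injective_iff_map_eq_one]
  intro q hq
  obtain ⟨g, rfl⟩ := QuotientGroup.mk_surjective q
  exact (QuotientGroup.eq_one_iff g).2 ((QuotientGroup.eq_one_iff (g : G)).1 hq)

/-- the case of finitely generated groups -/
theorem xi_fg (hC : ClosedE C) (hM : ∀ (G : Type) [Group G], derivedSeries G 2 = ⊥ → C G)
    (hA : AcylF C) {G V : Type} [Group G] [MulAction G V] {T : SimpleGraph V} (hfg : Group.FG G)
    (hT : T.IsTree) (hact : ∀ (g : G) (u v : V), T.Adj u v → T.Adj (g • u) (g • v))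
    (L : Subgroup G) [L.Normal] (hQ : C (G ⧸ L)) (hV : ∀ v : V, C ↥(MulAction.stabilizer G v))
    (hEr : ∀ u v : V, T.Adj u v → Er G u v) (n : ℕ) (hEt : ∀ u v : V, T.Adj u v → Et G n u v)
    (hx : ∀ v u : V, T.Adj v u → ∀ x : G, x • v = v → x • u = u → Inf x → Bl C T x ∨ Hd T L x) :
    C G := by
  refine cylI_fg hC hA hfg hT hact hEr n hEt hV ?_
  intro v0 a0 h0 z hz hzv hza K hK hzK
  obtain ⟨hd1, hd2⟩ := cyl_data hEr hact h0 hz hzv hza
  rcases hx v0 a0 h0 z hzv hza hz with ⟨h1, h2⟩ | h1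
  · refine bal_cyl hC hM hA hT hact (rI_LR hEr) _ K hK hzK ?_ ?_ hV ?_
    · intro g hg
      obtain ⟨m, k, hm, _, h⟩ := hd1 g (hK g hg)
      exact ⟨m, k, hm, h1 g m k hm h, h⟩
    · intro v u h hvu
      obtain ⟨k, hk, h3, h4⟩ := hd2 v u h hvu
      exact ⟨k, hk, h3, h4, (h2 v u h k hk h3 h4).1⟩
    · intro v u h hvu k hk h3 h4
      exact (h2 v u h k hk h3 h4).2
  · obtain ⟨W, _, T', ι, hW, hcyl⟩ := cyl_subtree hT hact (rI_LR hEr) (cy (rI G) h0) K hK
    obtain ⟨hLn, hKL⟩ := LL_quot (C := C) hM K z fun g hg => hd1 g (hK g hg)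
    have hKL0 := C_subq hC L hQ K
    have hKi := C_inf hC (L.subgroupOf K) (LL K z) hKL0 hKL
    have hH1 := h1.sub (H := K) hW (x := ⟨z, hzK⟩)
    refine qcrit (G := K) (V := W) (T := T') hC hM hA hW.tree hW.act
      (L.subgroupOf K ⊓ LL K z) hKi ?_ ?_ ?_ ?_
    · intro w
      rw [hW.stab w]
      exact C_stab hC K (ι w) (hV _)
    · intro u v huv
      exact (hEr _ _ (hW.adj _ _ huv)).sub hW
    · intro u v huv
      exact ⟨n, (hEt _ _ (hW.adj _ _ huv)).sub'.sub hW⟩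
    · intro v u hvu x hxv hxu hxi hx'
      have h3 := hW.adj _ _ hvu
      obtain ⟨k, hk, h4, h5⟩ := hd2 _ _ h3 (hcyl v u hvu h3)
      obtain ⟨a, b, ha, hb, hab⟩ := (hEr _ _ h3) (x : G) (z ^ k) (hW.fix.1 hxv.1) (hW.fix.1 hxu.1)
        h4 h5 (hxi.map K.subtype K.subtype_injective) (hz.zpow hk)
      have hab' : x ^ a = (⟨z, hzK⟩ : K) ^ (k * b) := by
        apply Subtype.ext
        show (x : G) ^ a = z ^ (k * b)
        rw [hab, zpow_mul]
      refine hH1 v u hvu (k * b) (mul_ne_zero hk hb) ?_ ?_ (Sb (L.subgroupOf K ⊓ LL K z) v) ?_ ?_ ?_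
      · rw [← hab']
        exact zpow_fix hxv.1 a
      · rw [← hab']
        exact zpow_fix hxu.1 a
      · exact fun g hg => hg.2.1
      · rintro g ⟨hg1, hg2, m, hm, hg3⟩
        exact ⟨hg1, m, hm, Subtype.ext hg3⟩
      · rw [← hab']
        exact Subgroup.zpow_mem _ hx' a

/-- **trees with virtually cyclic edge stabilizers** -/
theorem xi (hC : ClosedE C) (hM : ∀ (G : Type) [Group G], derivedSeries G 2 = ⊥ → C G)
    (hA : AcylF C) {G V : Type} [Group G] [MulAction G V] {T : SimpleGraph V}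
    (hT : T.IsTree) (hact : ∀ (g : G) (u v : V), T.Adj u v → T.Adj (g • u) (g • v))
    (L : Subgroup G) [L.Normal] (hQ : C (G ⧸ L)) (hV : ∀ v : V, C ↥(MulAction.stabilizer G v))
    (hEr : ∀ u v : V, T.Adj u v → Er G u v) (hEt : ∀ u v : V, T.Adj u v → ∃ n : ℕ, Et G n u v)
    (hx : ∀ v u : V, T.Adj v u → ∀ x : G, x • v = v → x • u = u → Inf x → Bl C T x ∨ Hd T L x) :
    C G := by
  refine of_fg hC fun H hfg => ?_
  obtain ⟨o⟩ := hT.connected.nonempty
  have hactH : ∀ (g : H) (u v : V), T.Adj u v → T.Adj (g • u) (g • v) := fun g u v h => hact g u v h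
  obtain ⟨W, _, T', ι, Φ, hW, _, hΦ, hΦ'⟩ := fg_subtree (G := H) hT hactH hfg o
  obtain ⟨n, hn⟩ := uniform (G := H) (T := T) (T' := T') (ι := ι) (Φ := Φ)
    (fun u v n => Et H n u v) hΦ hΦ' (fun u v n n' h h' => h'.mono h) (fun u v n h => h.symm)
    (fun h u v n h' => h'.inv h) (fun u v huv => by
      obtain ⟨n, hn⟩ := hEt u v huv
      exact ⟨n, hn.sub'⟩)
  refine xi_fg (G := H) (V := W) (T := T') hC hM hA hfg hW.tree hW.act (L.subgroupOf H)
    (C_subq hC L hQ H) ?_ ?_ n ?_ ?_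
  · intro w
    rw [hW.stab w]
    exact C_stab hC H (ι w) (hV _)
  · intro u v huv
    exact (hEr _ _ (hW.adj _ _ huv)).sub hW
  · intro u v huv
    exact (hn u v huv).sub hW
  · intro v u hvu x hxv hxu hxi
    rcases hx _ _ (hW.adj _ _ hvu) x (hW.fix.1 hxv) (hW.fix.1 hxu)
      (hxi.map H.subtype H.subtype_injective) with h | h
    · exact Or.inl (h.sub hW)
    · exact Or.inr (h.sub hW)

end Pool.Agent.N509.TX
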