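import Pool.Agent.N509.TK.Om

/-!
# Invariant subtrees with finitely many orbits of edges
-/

set_option autoImplicit false

namespace Pool.Agent.N509.TX

open SimpleGraph
open Pool.Agent.Y110.FJ
open Pool.Agent.N509.TK
open Pool.Agent.R941.FJ (C_equiv C_le C_cyc mem_sup_normal)

variable {C : ∀ (G : Type) [Group G], Prop}

/-- an equivariant subtree -/
structure STree (G : Type) {W V : Type} [Group G] [MulAction G W] [MulAction G V]
    (T : SimpleGraph V) (T' : SimpleGraph W) (ι : W → V) : Prop where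
  tree : T'.IsTree
  inj : Function.Injective ι
  eqv : ∀ (g : G) (w : W), ι (g • w) = g • ι w
  adj : ∀ x y : W, T'.Adj x y → T.Adj (ι x) (ι y)
  act : ∀ (g : G) (x y : W), T'.Adj x y → T'.Adj (g • x) (g • y)

section

variable {G V : Type} [Group G] [MulAction G V] {T : SimpleGraph V}

theorem STree.fix {W : Type} [MulAction G W] {T' : SimpleGraph W} {ι : W → V}
    (h : STree G T T' ι) {g : G} {w : W} : g • w = w ↔ g • ι w = ι w :=
  ⟨fun h1 => by rw [← h.eqv, h1], fun h1 => h.inj (by rw [h.eqv, h1])⟩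

theorem STree.stab {W : Type} [MulAction G W] {T' : SimpleGraph W} {ι : W → V}
    (h : STree G T T' ι) (w : W) : MulAction.stabilizer G w = MulAction.stabilizer G (ι w) := by
  ext g
  exact h.fix

/-- finitely generated groups -/
theorem fg_subtree (hT : T.IsTree) (hact : ∀ (g : G) (u v : V), T.Adj u v → T.Adj (g • u) (g • v))
    (hfg : Group.FG G) (o : V) :
    ∃ (W : Type) (_ : MulAction G W) (T' : SimpleGraph W) (ι : W → V) (Φ : Finset (V × V)),
      STree G T T' ι ∧ (∃ w, ι w = o) ∧ (∀ e ∈ Φ, T.Adj e.1 e.2) ∧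
      ∀ x y, T'.Adj x y → ∃ h : G, (h • ι x, h • ι y) ∈ Φ ∨ (h • ι y, h • ι x) ∈ Φ := by
  classical
  obtain ⟨S, hS⟩ := (Group.fg_def.1 hfg)
  let w : ∀ g : G, T.Walk o (g • o) := fun g => (hT.connected.preconnected o (g • o)).some
  obtain ⟨Φ, hΦ⟩ : ∃ Φ : Finset (V × V),
      Φ = S.biUnion fun s => ((w s).darts.map fun d => d.toProd).toFinset := ⟨_, rfl⟩
  have hΦT : ∀ e ∈ Φ, T.Adj e.1 e.2 := by
    intro e he
    rw [hΦ, Finset.mem_biUnion] at he
    obtain ⟨s, -, he⟩ := he
    rw [List.mem_toFinset, List.mem_map] at he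
    obtain ⟨d, -, rfl⟩ := he
    exact d.adj
  obtain ⟨T', hT'⟩ : ∃ T' : SimpleGraph V, T' = tg T (⊤ : Subgroup G) (Φ : Set (V × V)) := ⟨_, rfl⟩
  have hle : T' ≤ T := by
    rw [hT']
    intro u v h
    exact h.1
  have hreach : ∀ g : G, T'.Reachable o (g • o) := by
    intro g
    have hg : g ∈ Subgroup.closure (S : Set G) := by
      rw [hS]
      exact Subgroup.mem_top g
    induction hg using Subgroup.closure_induction with
    | mem s hs =>
      rw [hT']
      refine tg_walk _ _ (w s) fun d hd => ?_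
      rw [hΦ]
      simp only [Finset.coe_biUnion, Set.mem_iUnion, Finset.mem_coe, List.mem_toFinset, List.mem_map]
      exact ⟨s, hs, d, hd, rfl⟩
    | one =>
      rw [one_smul]
    | mul a b ha hb iha ihb =>
      rw [mul_smul]
      refine iha.trans ?_
      rw [hT'] at ihb ⊢
      exact tg_reach hact _ _ (Subgroup.mem_top a) ihb
    | inv a ha iha =>
      have h1 : T'.Reachable (a⁻¹ • o) (a⁻¹ • a • o) := by
        rw [hT'] at iha ⊢
        exact tg_reach hact _ _ (Subgroup.mem_top _) iha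
      rw [inv_smul_smul] at h1
      exact h1.symm
  have hTs : ∀ (a : G) (x y : V), T'.Adj x y → T'.Adj (a • x) (a • y) := by
    intro a x y h
    rw [hT'] at h ⊢
    exact tg_smul hact _ _ (Subgroup.mem_top a) h
  have hTa : ∀ x y : V, T'.Adj x y → ∃ h : G, (h • x, h • y) ∈ Φ ∨ (h • y, h • x) ∈ Φ := by
    intro x y h
    rw [hT'] at h
    obtain ⟨k, _, hk⟩ := h.2
    exact ⟨k, hk⟩
  obtain ⟨c, hc⟩ : ∃ c : T'.ConnectedComponent, c = T'.connectedComponentMk o := ⟨_, rfl⟩
  have hcm : ∀ x, x ∈ c.supp ↔ T'.Reachable o x := by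
    intro x
    rw [hc, ConnectedComponent.mem_supp_iff, ConnectedComponent.eq]
    exact ⟨fun h => h.symm, fun h => h.symm⟩
  have hcs : ∀ (h : G) (x : V), x ∈ c.supp → h • x ∈ c.supp := by
    intro h x hx
    rw [hcm] at hx ⊢
    refine (hreach h).trans ?_
    rw [hT'] at hx ⊢
    exact tg_reach hact _ _ (Subgroup.mem_top h) hx
  let iA : MulAction G c.supp :=
    { smul := fun h x => ⟨h • (x : V), hcs h x x.2⟩
      one_smul := fun x => Subtype.ext (one_smul G (x : V))
      mul_smul := fun h k x => Subtype.ext (mul_smul h k (x : V)) }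
  refine ⟨c.supp, iA, c.toSimpleGraph, Subtype.val, Φ, ?_, ?_, hΦT, ?_⟩
  · refine ⟨(hT.isAcyclic.anti hle).isTree_connectedComponent c, Subtype.val_injective,
      fun g w => rfl, ?_, ?_⟩
    · intro x y hxy
      have h1 : T'.Adj (x : V) (y : V) := hxy
      exact hle h1
    · intro h x y hxy
      have h1 : T'.Adj (x : V) (y : V) := hxy
      exact hTs h _ _ h1
  · exact ⟨⟨o, (hcm o).2 (Reachable.refl o)⟩, rfl⟩
  · intro x y hxy
    exact hTa _ _ hxy

/-- the subtree of a cylinder -/
theorem cyl_subtree {r : V → V → V → Prop} (hT : T.IsTree)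
    (hact : ∀ (g : G) (u v : V), T.Adj u v → T.Adj (g • u) (g • v)) (hr : LR G T r) (y : Cyl T r)
    (K : Subgroup G) (hK : ∀ g ∈ K, Pres hact y g) :
    ∃ (W : Type) (_ : MulAction K W) (T' : SimpleGraph W) (ι : W → V),
      STree K T T' ι ∧ ∀ x z : W, T'.Adj x z → ∀ h' : T.Adj (ι x) (ι z), cy r h' = y := by
  have htree : (T.induce {v : V | Mem y v}).IsTree := by
    refine ⟨?_, hT.isAcyclic.induce _⟩
    obtain ⟨⟨⟨o, a⟩, h⟩, hy⟩ := Quotient.exists_rep y
    have : Nonempty {v : V | Mem y v} := ⟨⟨o, a, h, hy⟩⟩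
    refine ⟨fun v u => ?_⟩
    obtain ⟨p, hp, -⟩ := hT.existsUnique_path (v : V) (u : V)
    exact ⟨p.induce _ (path_mem hT hr v.2 u.2 p hp)⟩
  let iA : MulAction K {v : V | Mem y v} :=
    { smul := fun g v => ⟨(g : G) • (v : V), (hK g g.2).mem v.2⟩
      one_smul := fun v => Subtype.ext (one_smul G (v : V))
      mul_smul := fun g h v => Subtype.ext (mul_smul (g : G) (h : G) (v : V)) }
  refine ⟨{v : V | Mem y v}, iA,
    T.induce {v : V | Mem y v}, Subtype.val, ⟨htree, Subtype.val_injective, fun g w => rfl, ?_, ?_⟩, ?_⟩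
  · intro x z h
    exact h
  · intro g x z h
    exact hact g _ _ h
  · intro x z _ h'
    exact adj_cy hT hr x.2 z.2 h'

/-- directed unions of finitely generated subgroups -/
theorem of_fg (hC : ClosedE C) (h : ∀ H : Subgroup G, Group.FG H → C H) : C G := by
  classical
  refine Pool.Agent.Y430.SS.of_directed hC.base G (Finset G) (fun i j => ?_)
    (fun s => Subgroup.closure (s : Set G))
    (fun s t h => Subgroup.closure_mono (by exact_mod_cast h))
    (fun g => ⟨{g}, Subgroup.subset_closure (by simp)⟩) (fun S => ?_)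
  · exact ⟨i ∪ j, Finset.subset_union_left, Finset.subset_union_right⟩
  · exact h _ ((Group.fg_iff_subgroup_fg _).2 ⟨S, rfl⟩)

/-- directed unions of finitely generated subgroups which contain a given finite set -/
theorem of_fg_mem (hC : ClosedE C) (z : G) (h : ∀ H : Subgroup G, Group.FG H → z ∈ H → C H) : C G := by
  refine of_fg hC fun H hH => ?_
  refine C_le hC.base (le_sup_left : H ≤ H ⊔ Subgroup.zpowers z) (h _ ?_ ?_)
  · rw [Group.fg_iff_subgroup_fg] at hH ⊢
    exact hH.sup ⟨{z}, by simp [Subgroup.zpowers_eq_closure]⟩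
  · exact Subgroup.mem_sup_right (Subgroup.mem_zpowers z)

/-- vertex stabilizers of subgroups -/
theorem C_stab (hC : ClosedE C) (H : Subgroup G) (v : V) (h : C ↥(MulAction.stabilizer G v)) :
    C ↥(MulAction.stabilizer H v) := by
  refine hC.base.of_injective _ _ (((H.subtype).comp (Subgroup.subtype
    (MulAction.stabilizer H v))).codRestrict (MulAction.stabilizer G v) ?_) ?_ h
  · rintro ⟨y, hy⟩
    exact hy
  · intro a b hab
    have h1 := congrArg Subtype.val hab
    exact Subtype.ext (Subtype.ext h1)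

end

end Pool.Agent.N509.TX
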