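import Pool.Agent.N509.TX.Xi

/-!
# Virtually cyclic edge stabilizers satisfy the conditions
-/

set_option autoImplicit false

namespace Pool.Agent.N509.TX

variable {G V : Type} [Group G] [MulAction G V]

theorem vc_edge {u v : V}
    (h : VC ↥(MulAction.stabilizer G u ⊓ MulAction.stabilizer G v)) :
    Er G u v ∧ ∃ n : ℕ, Et G n u v := by
  classical
  obtain ⟨E, hE⟩ : ∃ E : Subgroup G, E = MulAction.stabilizer G u ⊓ MulAction.stabilizer G v :=
    ⟨_, rfl⟩
  rw [← hE] at h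
  have hmem : ∀ g : G, g ∈ E ↔ g • u = u ∧ g • v = v := by
    intro g
    rw [hE]
    rfl
  constructor
  · intro x y hxu hxv hyu hyv hx hy
    obtain ⟨a, b, ha, hb, hab⟩ := h.comm (x := ⟨x, (hmem x).2 ⟨hxu, hxv⟩⟩)
      (y := ⟨y, (hmem y).2 ⟨hyu, hyv⟩⟩) (Inf.of_map E.subtype hx) (Inf.of_map E.subtype hy)
    exact ⟨a, b, ha, hb, congrArg Subtype.val hab⟩
  · obtain ⟨B, hB⟩ := h.tors
    refine ⟨B, fun S hS F hF => ?_⟩
    have hSE : ∀ g ∈ S, g ∈ E := fun g hg => (hmem g).2 ⟨(hS g hg).1, (hS g hg).2.1⟩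
    have h1 := hB (S.subgroupOf E) (by
      rintro ⟨g, hg⟩ hgS
      obtain ⟨_, _, m, hm, h2⟩ := hS g hgS
      exact ⟨m, hm, Subtype.ext h2⟩) (F.attach.image fun g : {g // g ∈ F} =>
        (⟨(g : G), hSE g (hF g g.2)⟩ : E)) (by
      intro g hg
      obtain ⟨x, _, rfl⟩ := Finset.mem_image.1 hg
      exact hF x x.2)
    rwa [Finset.card_image_of_injective _ (by
      intro x y hxy
      have h2 := congrArg Subtype.val hxy
      exact Subtype.ext h2), Finset.card_attach] at h1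

end Pool.Agent.N509.TX
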