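import Pool.Agent.N509.TX.Rel

/-!
# Stabilizers of balanced cylinders
-/

set_option autoImplicit false

namespace Pool.Agent.N509.TX

open SimpleGraph
open Pool.Agent.Y110.FJ
open Pool.Agent.N509.TK
open Pool.Agent.R941.FJ (C_equiv C_le C_cyc mem_sup_normal)

variable {C : ∀ (G : Type) [Group G], Prop}
variable {G V : Type} [Group G] [MulAction G V] {T : SimpleGraph V} {r : V → V → V → Prop}

/-- the elements which commute with a power of `z` form a subgroup of index at most two -/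
theorem LL_index (K : Subgroup G) (z : G)
    (hcomm : ∀ g ∈ K, ∃ m k : ℤ, m ≠ 0 ∧ |m| = |k| ∧ g * z ^ m * g⁻¹ = z ^ k) :
    (LL K z).FiniteIndex := by
  have h2 : (LL K z).index ∣ 2 := by
    rw [Subgroup.index_dvd_two_iff]
    by_cases hall : ∀ g : K, g ∈ LL K z
    · exact ⟨1, fun b => Or.inr (hall b)⟩
    · push Not at hall
      obtain ⟨a, ha⟩ := hall
      have key : ∀ g : K, g ∉ LL K z → ∃ m : ℤ, m ≠ 0 ∧ (g : G) * z ^ m * (g : G)⁻¹ = z ^ (-m) := by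
        intro g hg
        obtain ⟨m, k, hm, hmk, h⟩ := hcomm g g.2
        rcases abs_eq_abs.1 hmk with h1 | h1
        · refine absurd ⟨m, hm, ?_⟩ hg
          rw [← h1] at h
          exact mul_inv_eq_iff_eq_mul.1 h
        · refine ⟨m, hm, ?_⟩
          rw [h, h1, neg_neg]
      refine ⟨a, fun b => ?_⟩
      by_cases hb : b ∈ LL K z
      · exact Or.inr hb
      · left
        obtain ⟨m, hm, h⟩ := key a ha
        obtain ⟨m', hm', h'⟩ := key b hb
        refine ⟨m * m', mul_ne_zero hm hm', ?_⟩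
        have e1 : (a : G) * z ^ (m * m') * (a : G)⁻¹ = z ^ (-(m * m')) := by
          rw [zpow_mul, ← conj_zpow, h, ← zpow_mul]
          congr 1
          ring
        have e2 : (b : G) * z ^ (-(m * m')) * (b : G)⁻¹ = z ^ (m * m') := by
          have e3 : z ^ (-(m * m')) = (z ^ m') ^ (-m) := by
            rw [← zpow_mul]
            congr 1
            ring
          rw [e3, ← conj_zpow, h', ← zpow_mul]
          congr 1
          ring
        show (b : G) * a * z ^ (m * m') = z ^ (m * m') * (b * a)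
        rw [← mul_inv_eq_iff_eq_mul, mul_inv_rev]
        calc (b : G) * a * z ^ (m * m') * ((a : G)⁻¹ * (b : G)⁻¹)
            = b * (a * z ^ (m * m') * (a : G)⁻¹) * (b : G)⁻¹ := by group
          _ = z ^ (m * m') := by rw [e1, e2]
  refine ⟨fun h => ?_⟩
  rw [h] at h2
  exact absurd h2 (by decide)

/-- **groups which preserve a balanced cylinder** -/
theorem bal_cyl (hC : ClosedE C) (hM : ∀ (G : Type) [Group G], derivedSeries G 2 = ⊥ → C G)
    (hA : AcylF C) (hT : T.IsTree)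
    (hact : ∀ (g : G) (u v : V), T.Adj u v → T.Adj (g • u) (g • v)) (hr : LR G T r) (y : Cyl T r)
    (K : Subgroup G) (hK : ∀ g ∈ K, Pres hact y g) {z : G} (hzK : z ∈ K)
    (hcomm : ∀ g ∈ K, ∃ m k : ℤ, m ≠ 0 ∧ |m| = |k| ∧ g * z ^ m * g⁻¹ = z ^ k)
    (hE : ∀ (v u : V) (h : T.Adj v u), cy r h = y → ∃ n : ℤ, n ≠ 0 ∧ z ^ n • v = v ∧
      z ^ n • u = u ∧
      (Subgroup.zpowers (z ^ n)).relIndex (MulAction.stabilizer G v ⊓ MulAction.stabilizer G u) ≠ 0)
    (hV : ∀ v : V, C ↥(MulAction.stabilizer G v))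
    (hd : ∀ (v u : V) (h : T.Adj v u), cy r h = y → ∀ n : ℤ, n ≠ 0 → z ^ n • v = v →
      z ^ n • u = u → ∀ S : Subgroup G, (∀ g ∈ S, g • v = v ∧ g * z ^ n = z ^ n * g) → z ^ n ∈ S →
      ∃ (Q : Type) (_ : Group Q) (f : S →* Q), C Q ∧
        ∀ s : S, f s = 1 ↔ (s : G) ∈ Subgroup.zpowers (z ^ n)) : C K := by
  have hfi := LL_index K z hcomm
  refine hC.base.finiteIndex K (LL K z) hfi ?_
  refine C_equiv hC.base ((LL K z).equivMapOfInjective K.subtype K.subtype_injective) ?_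
  obtain ⟨K1, hK1⟩ : ∃ K1 : Subgroup G, K1 = (LL K z).map K.subtype := ⟨_, rfl⟩
  rw [← hK1]
  have hK1K : K1 ≤ K := by
    rw [hK1]
    rintro _ ⟨g, _, rfl⟩
    exact g.2
  have hz1 : z ∈ K1 := by
    rw [hK1]
    exact ⟨⟨z, hzK⟩, ⟨1, one_ne_zero, by
      show z * z ^ (1 : ℤ) = z ^ (1 : ℤ) * z
      rw [zpow_one]⟩, rfl⟩
  obtain ⟨W, _, T', ι, hW, hcyl⟩ := cyl_subtree hT hact hr y K1 fun g hg => hK g (hK1K hg)
  have hzn : ∀ (n : ℤ) (w : W), ((⟨z, hz1⟩ : K1) ^ n) • w = w ↔ z ^ n • ι w = ι w := by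
    intro n w
    exact hW.fix
  refine bal0 (G := K1) (V := W) (T := T') hC hM hA hW.tree hW.act ⟨z, hz1⟩ ?_ ?_ ?_ ?_
  · rintro ⟨g, hg⟩
    have hg' := hg
    rw [hK1] at hg'
    obtain ⟨g', ⟨n, hn, h⟩, rfl⟩ := hg'
    exact ⟨n, hn, Subtype.ext h⟩
  · intro x w hxw
    have h1 := hW.adj _ _ hxw
    obtain ⟨n, hn, h2, h3, h4⟩ := hE _ _ h1 (hcyl x w hxw h1)
    refine ⟨n, hn, (hzn n x).2 h2, (hzn n w).2 h3, ?_⟩
    have h5 : Subgroup.zpowers ((⟨z, hz1⟩ : K1) ^ n) =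
        (Subgroup.zpowers (z ^ n)).comap K1.subtype := by
      ext g
      rw [Subgroup.mem_comap]
      constructor
      · rintro ⟨i, rfl⟩
        exact ⟨i, rfl⟩
      · rintro ⟨i, hi⟩
        exact ⟨i, Subtype.ext hi⟩
    rw [h5, Subgroup.relIndex_comap]
    refine fun h6 => h4 (Subgroup.relIndex_eq_zero_of_le_right ?_ h6)
    rintro _ ⟨g, ⟨hg1, hg2⟩, rfl⟩
    exact ⟨hW.fix.1 hg1, hW.fix.1 hg2⟩
  · intro w
    rw [hW.stab w]
    exact C_stab hC K1 (ι w) (hV _)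
  · intro x w hxw n hn hx hw S hS hzS
    have h1 := hW.adj _ _ hxw
    obtain ⟨Q, _, f, hQ, hf⟩ := hd _ _ h1 (hcyl x w hxw h1) n hn ((hzn n x).1 hx) ((hzn n w).1 hw)
      (S.map K1.subtype) (by
        rintro _ ⟨g, hg, rfl⟩
        obtain ⟨h2, h3⟩ := hS g hg
        exact ⟨hW.fix.1 h2, congrArg Subtype.val h3⟩) ⟨_, hzS, rfl⟩
    refine ⟨Q, _, f.comp (K1.subtype.subgroupMap S), hQ, fun s => ?_⟩
    refine (hf _).trans ?_
    constructor
    · rintro ⟨i, hi⟩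
      exact ⟨i, Subtype.ext hi⟩
    · rintro ⟨i, hi⟩
      exact ⟨i, congrArg Subtype.val hi⟩

end Pool.Agent.N509.TX
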