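import Pool.Agent.N509.TX.Kf

/-!
# Rational characters of groups acting on trees
-/

set_option autoImplicit false

namespace Pool.Agent.N509.TX

open SimpleGraph
open scoped commutatorElement
open Pool.Agent.Y110.FJ
open Pool.Agent.N509.TK
open Pool.Agent.R941.FJ (C_equiv C_le C_cyc mem_sup_normal)

variable {C : ∀ (G : Type) [Group G], Prop}

section chars

variable {G : Type} [Group G]

/-- `f` is additive on `A` -/
def QHom (A : Subgroup G) (f : G → ℚ) : Prop := ∀ x ∈ A, ∀ y ∈ A, f (x * y) = f x + f y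

theorem QHom.one {A : Subgroup G} {f : G → ℚ} (h : QHom A f) : f 1 = 0 := by
  have h1 := h 1 A.one_mem 1 A.one_mem
  rw [mul_one] at h1
  exact left_eq_add.1 h1

theorem QHom.inv {A : Subgroup G} {f : G → ℚ} (h : QHom A f) {x : G} (hx : x ∈ A) :
    f x⁻¹ = - f x := by
  have h1 := h x hx x⁻¹ (A.inv_mem hx)
  rw [mul_inv_cancel, h.one] at h1
  linarith

theorem QHom.pow {A : Subgroup G} {f : G → ℚ} (h : QHom A f) {x : G} (hx : x ∈ A) (n : ℕ) :
    f (x ^ n) = n * f x := by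
  induction n with
  | zero => rw [pow_zero, h.one]; simp
  | succ n ih =>
    rw [pow_succ, h _ (A.pow_mem hx n) _ hx, ih]
    push_cast
    ring

theorem QHom.zpow {A : Subgroup G} {f : G → ℚ} (h : QHom A f) {x : G} (hx : x ∈ A) (n : ℤ) :
    f (x ^ n) = n * f x := by
  cases n with
  | ofNat n =>
    rw [Int.ofNat_eq_natCast, zpow_natCast, h.pow hx]
    push_cast
    rfl
  | negSucc n =>
    rw [zpow_negSucc, h.inv (A.pow_mem hx _), h.pow hx]
    push_cast
    ring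

theorem sepQ (A : Subgroup G) {x : G} (hx : x ∈ A) (h : ∀ k : ℤ, k ≠ 0 → x ^ k ∉ ⁅A, A⁆) (q : ℚ) :
    ∃ f : G → ℚ, QHom A f ∧ f x = q := by
  classical
  let x' : Additive (Abelianization A) := Additive.ofMul (Abelianization.of ⟨x, hx⟩)
  let i : ℤ →+ Additive (Abelianization A) := zmultiplesHom _ x'
  have hi : Function.Injective i := by
    rw [injective_iff_map_eq_zero]
    intro n hn
    by_contra hn0
    apply h n hn0
    have h1 : n • x' = 0 := hn
    have h2 : Abelianization.of ((⟨x, hx⟩ : A) ^ n) = 1 := by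
      rw [map_zpow]
      exact h1
    have h3 : (⟨x, hx⟩ : A) ^ n ∈ commutator A :=
      (QuotientGroup.eq_one_iff ((⟨x, hx⟩ : A) ^ n)).1 h2
    exact (mem_comm_iff A ((⟨x, hx⟩ : A) ^ n)).2 h3
  obtain ⟨F, hF⟩ := (Module.Baer.of_divisible ℚ).extension_property_addMonoidHom i hi
    (zmultiplesHom _ q)
  have h1 : F x' = q := by
    have h2 := DFunLike.congr_fun hF 1
    have h3 : i 1 = x' := by simp [i]
    have h4 : (zmultiplesHom ℚ q) 1 = q := by simp
    rw [h4] at h2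
    rw [← h3]
    exact h2
  refine ⟨fun g => if hg : g ∈ A then F (Additive.ofMul (Abelianization.of ⟨g, hg⟩)) else 0, ?_, ?_⟩
  · intro a ha b hb
    simp only [dif_pos ha, dif_pos hb, dif_pos (A.mul_mem ha hb)]
    rw [← map_add]
    rfl
  · simp only [dif_pos hx]
    exact h1

/-- extension of rational characters -/
theorem extQ (A B : Subgroup G)
    (hr : ∀ x y, x ∈ A → x ∈ B → y ∈ A → y ∈ B → Inf x → Inf y →
      ∃ a b : ℤ, a ≠ 0 ∧ b ≠ 0 ∧ x ^ a = y ^ b)
    (hAB : ∀ x ∈ A, x ∈ B → Inf x → x ∉ ⁅A, A⁆) (f : G → ℚ) (hf : QHom B f) :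
    ∃ f' : G → ℚ, QHom A f' ∧ ∀ x ∈ A, x ∈ B → f' x = f x := by
  have htor : ∀ (B : Subgroup G) (f : G → ℚ), QHom B f → ∀ y ∈ B, ¬ Inf y → f y = 0 := by
    intro B f hf y hy hyi
    obtain ⟨m, hm, h1⟩ := not_inf hyi
    have h2 := hf.zpow hy m
    rw [h1, hf.one] at h2
    have h3 : (m : ℚ) ≠ 0 := by exact_mod_cast hm
    rcases mul_eq_zero.1 h2.symm with h4 | h4
    · exact absurd h4 h3
    · exact h4
  by_cases h0 : ∃ x ∈ A, x ∈ B ∧ f x ≠ 0
  · obtain ⟨x, hxA, hxB, hfx⟩ := h0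
    have hxi : Inf x := by
      by_contra h
      exact hfx (htor B f hf x hxB h)
    obtain ⟨f', hf', h1⟩ := sepQ A hxA (fun k hk => hAB _ (A.zpow_mem hxA k) (B.zpow_mem hxB k)
      (hxi.zpow hk)) (f x)
    refine ⟨f', hf', fun y hyA hyB => ?_⟩
    by_cases hyi : Inf y
    · obtain ⟨a, b, ha, hb, hab⟩ := hr y x hyA hyB hxA hxB hyi hxi
      have h2 := hf'.zpow hyA a
      have h3 := hf.zpow hyB a
      rw [hab, hf'.zpow hxA, h1] at h2
      rw [hab, hf.zpow hxB] at h3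
      have h4 : (a : ℚ) ≠ 0 := by exact_mod_cast ha
      have h5 : (a : ℚ) * f' y = a * f y := by rw [← h2, ← h3]
      exact mul_left_cancel₀ h4 h5
    · rw [htor B f hf y hyB hyi, htor A f' hf' y hyA hyi]
  · push Not at h0
    exact ⟨fun _ => 0, fun _ _ _ _ => by simp, fun x hxA hxB => (h0 x hxA hxB).symm⟩

end chars

section fam

variable {G V X : Type} {T : SimpleGraph V} [Group G] [MulAction G V] {R : V → Subgroup G}
  {Φ : V → (G → X) → Prop}

/-- the function at the first vertex of a walk -/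
noncomputable def chq (hext : ∀ v u, T.Adj v u → ∀ f, Φ u f → ∃ f', Φ v f' ∧
    ∀ x ∈ R v, x ∈ R u → f' x = f x) {o : V} (f0 : {f : G → X // Φ o f}) :
    ∀ {v : V}, T.Walk v o → {f : G → X // Φ v f}
  | _, .nil => f0
  | v, .cons (v := u) h p =>
    ⟨Classical.choose (hext v u h (chq hext f0 p).1 (chq hext f0 p).2),
      (Classical.choose_spec (hext v u h (chq hext f0 p).1 (chq hext f0 p).2)).1⟩

omit [MulAction G V] in
theorem chq_cons (hext : ∀ v u, T.Adj v u → ∀ f, Φ u f → ∃ f', Φ v f' ∧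
    ∀ x ∈ R v, x ∈ R u → f' x = f x) {o : V} (f0 : {f : G → X // Φ o f}) {u v : V}
    (h : T.Adj v u) (p : T.Walk u o) :
    ∀ x ∈ R v, x ∈ R u → (chq hext f0 (.cons h p)).1 x = (chq hext f0 p).1 x :=
  (Classical.choose_spec (hext v u h (chq hext f0 p).1 (chq hext f0 p).2)).2

omit [MulAction G V] in
/-- a compatible family of functions -/
theorem exists_famq (hT : T.IsTree) (hext : ∀ v u, T.Adj v u → ∀ f, Φ u f → ∃ f', Φ v f' ∧
    ∀ x ∈ R v, x ∈ R u → f' x = f x) (o : V) (f0 : G → X) (hf0 : Φ o f0) :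
    ∃ χ : V → G → X, (∀ v, Φ v (χ v)) ∧ χ o = f0 ∧
      ∀ u v, T.Adj u v → ∀ x ∈ R u, x ∈ R v → χ u x = χ v x := by
  classical
  have hpath : ∀ v, ∃ p : T.Walk v o, p.IsPath := fun v => by
    obtain ⟨p, hp, -⟩ := hT.existsUnique_path v o
    exact ⟨p, hp⟩
  choose P hP using hpath
  have huniq : ∀ v (q : T.Walk v o), q.IsPath → q = P v := fun v q hq =>
    (hT.existsUnique_path v o).unique hq (hP v)
  refine ⟨fun v => (chq hext ⟨f0, hf0⟩ (P v)).1, fun v => (chq hext ⟨f0, hf0⟩ (P v)).2, ?_, ?_⟩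
  · have h1 : (Walk.nil : T.Walk o o) = P o := huniq o _ Walk.IsPath.nil
    show (chq hext ⟨f0, hf0⟩ (P o)).1 = f0
    rw [← h1]
    rfl
  · have key : ∀ u v, T.Adj u v → v ∉ (P u).support → ∀ x ∈ R u, x ∈ R v →
        (chq hext ⟨f0, hf0⟩ (P v)).1 x = (chq hext ⟨f0, hf0⟩ (P u)).1 x := by
      intro u v huv hv x hxu hxv
      have h1 : (Walk.cons huv.symm (P u)).IsPath := (Walk.cons_isPath_iff _ _).2 ⟨hP u, hv⟩
      rw [← huniq v _ h1]
      exact chq_cons hext _ huv.symm (P u) x hxv hxu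
    intro u v huv x hxu hxv
    by_cases hv : v ∈ (P u).support
    · have hu : u ∉ (P v).support := by
        intro hu
        have hstep : ∀ a b : V, T.Adj a b → b ∈ (P a).support → ∃ q : T.Walk b o, a ∉ q.support := by
          intro a b hab hb
          refine ⟨(P a).dropUntil b hb, fun h => ?_⟩
          have h3 := (Walk.take_spec (P a) hb)
          have h4 : (P a).support.Nodup := (hP a).support_nodup
          rw [← h3, Walk.support_append] at h4
          have h5 : a ∈ ((P a).takeUntil b hb).support := Walk.start_mem_support _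
          have h6 : a ∈ ((P a).dropUntil b hb).support.tail := by
            rw [← Walk.cons_tail_support, List.mem_cons] at h
            exact h.resolve_left hab.ne
          exact (List.nodup_append.1 h4).2.2 a h5 a h6 rfl
        obtain ⟨q, hq⟩ := hstep u v huv hv
        have h3 : q.bypass = P v := huniq v _ q.bypass_isPath
        apply hq
        apply q.support_bypass_subset_support
        rw [h3]
        exact hu
      exact key v u huv.symm hu x hxv hxu
    · exact (key u v huv hv x hxu hxv).symm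

end fam

section h1

variable {G V : Type} {T : SimpleGraph V} [Group G] [MulAction G V]

/-- the value of a rational number -/
def toE (q : ℚ) : EE := Multiplicative.ofAdd (q : AddCircle (1 : ℚ))

theorem toE_add (a b : ℚ) : toE (a + b) = toE a * toE b := by
  unfold toE
  rw [AddCircle.coe_add]
  rfl

theorem toE_half : toE (1 / 2) ≠ 1 := by
  intro h
  have h1 : ((1 / 2 : ℚ) : AddCircle (1 : ℚ)) = 0 := h
  rw [AddCircle.coe_eq_zero_iff] at h1
  obtain ⟨n, hn⟩ := h1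
  rw [zsmul_eq_mul, mul_one] at hn
  have h2 : ((2 * n : ℤ) : ℚ) = 1 := by
    push_cast
    rw [hn]
    norm_num
  have h3 : 2 * n = 1 := by exact_mod_cast h2
  omega

/-- elements of infinite order in the abelianization of a vertex group -/
theorem h1q (hT : T.IsTree) (hact : ∀ (g : G) (u v : V), T.Adj u v → T.Adj (g • u) (g • v))
    (L : Subgroup G) [L.Normal]
    (hr : ∀ v u, T.Adj v u → ∀ x y, x ∈ Sb L v → x ∈ Sb L u → y ∈ Sb L v → y ∈ Sb L u → Inf x →
      Inf y → ∃ a b : ℤ, a ≠ 0 ∧ b ≠ 0 ∧ x ^ a = y ^ b)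
    (hE : ∀ v u, T.Adj v u → ∀ x ∈ Sb L v, x ∈ Sb L u → Inf x → x ∉ ⁅Sb L v, Sb L v⁆) (v : V) {x : G}
    (hx : x ∈ Sb L v) (hk : ∀ k : ℤ, k ≠ 0 → x ^ k ∉ ⁅Sb L v, Sb L v⁆) :
    x ∉ ⁅(⨆ v : V, Sb L v), (⨆ v : V, Sb L v)⁆ := by
  intro h
  have hcn : (⁅(⨆ v : V, Sb L v), (⨆ v : V, Sb L v)⁆).Normal := by
    have hn : (⨆ v : V, Sb L v).Normal := Sb_normal L
    infer_instance
  obtain ⟨S, hS⟩ := Tv.exists (R := Sb (V := V) L) hT
  have hq := Tq.of_Sb hT hact L hS
  obtain ⟨a, ha, o, ho, rfl⟩ := hq.cover v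
  have hx' : a⁻¹ * x * a ∈ Sb L o := by
    have := Sb_conj L a⁻¹ _ hx
    rwa [inv_smul_smul, inv_inv] at this
  have hk' : ∀ k : ℤ, k ≠ 0 → (a⁻¹ * x * a) ^ k ∉ ⁅Sb L o, Sb L o⁆ := by
    intro k hk0 h2
    apply hk k hk0
    have h3 := comm_conj L a o h2
    have h4 : a * (a⁻¹ * x * a) ^ k * a⁻¹ = x ^ k := by
      rw [← conj_zpow]
      congr 1
      group
    rwa [h4] at h3
  obtain ⟨f0, hf0, hfx⟩ := sepQ (Sb L o) hx' hk' (1 / 2)
  obtain ⟨χ, hχ, hχo, hc⟩ := exists_famq (R := Sb (V := V) L) (Φ := fun v f => QHom (Sb L v) f) hT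
    (fun v u hvu f hf => extQ (Sb L v) (Sb L u)
      (fun x y h1 h2 h3 h4 h5 h6 => hr v u hvu x y h1 h2 h3 h4 h5 h6) (hE v u hvu) f hf) o f0 hf0
  obtain ⟨r, s, hd⟩ := Gd.ex hT hact L (fun v x => toE (χ v x))
    (fun v x hx y hy => by
      show toE (χ v (x * y)) = toE (χ v x) * toE (χ v y)
      rw [hχ v x hx y hy, toE_add])
    (fun u v huv x hxu hxv => by
      show toE (χ u x) = toE (χ v x)
      rw [hc u v huv x hxu hxv]) hq
  obtain ⟨φ, hφ, hφv⟩ := hd.main hT hact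
  have hro : r o = o := hq.trans (s o) (hd.sH o) _ (hd.rS o) o ho (hd.eq o).symm
  have hso : s o ∈ Sb L o := by
    have h2 := hd.eq o
    rw [hro] at h2
    exact mem_Sb.2 ⟨h2.symm, Sb_le L (hd.sH o)⟩
  have h2 := hφv o _ hx'
  have hP : PHom (Sb L o) (fun x => toE (f0 x)) := by
    intro x hx y hy
    show toE (f0 (x * y)) = toE (f0 x) * toE (f0 y)
    rw [hf0 x hx y hy, toE_add]
  simp only [hro, hχo] at h2
  have e1 := hP _ (mul_mem (inv_mem hso) hx') _ hso
  have e2 := hP _ (inv_mem hso) _ hx'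
  have e3 := hP.inv hso
  simp only at e1 e2 e3
  rw [e1, e2, e3, mul_comm, mul_inv_cancel_left] at h2
  have h3 : a⁻¹ * x * a ∈ ⁅(⨆ v : V, Sb L v), (⨆ v : V, Sb L v)⁆ := by
    have := hcn.conj_mem x h a⁻¹
    rwa [inv_inv] at this
  rw [hφ.comm_eq_one h3, hfx] at h2
  exact toE_half h2.symm

/-- **edge groups whose elements of infinite order are detected in the first homology of the vertex
groups** -/
theorem qcrit (hC : ClosedE C) (hM : ∀ (G : Type) [Group G], derivedSeries G 2 = ⊥ → C G)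
    (hA : AcylF C) (hT : T.IsTree)
    (hact : ∀ (g : G) (u v : V), T.Adj u v → T.Adj (g • u) (g • v))
    (L : Subgroup G) [L.Normal] (hQ : C (G ⧸ L)) (hV : ∀ v : V, C ↥(MulAction.stabilizer G v))
    (hEr : ∀ u v : V, T.Adj u v → Er G u v) (hEt : ∀ u v : V, T.Adj u v → ∃ n, Et G n u v)
    (hE : ∀ v u, T.Adj v u → ∀ x ∈ Sb L v, x ∈ Sb L u → Inf x → x ∉ ⁅Sb L v, Sb L v⁆) : C G := by
  have hn : (⨆ v : V, Sb L v).Normal := Sb_normal L
  obtain ⟨D, hD⟩ : ∃ D : Subgroup G, D = ⁅(⨆ v : V, Sb L v), (⨆ v : V, Sb L v)⁆ := ⟨_, rfl⟩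
  have hDn : D.Normal := by
    rw [hD]
    infer_instance
  have hDL : D ≤ L := by
    rw [hD]
    exact (Subgroup.commutator_le_self _).trans (Sb_le L)
  have hP := target hC hM hT hact L hQ D hD
  refine kfin hC hM hA hT hact (QuotientGroup.mk' D) hP hV fun u v huv => ?_
  obtain ⟨n, hn'⟩ := hEt u v huv
  refine ⟨n, fun F hF => hn' (D ⊓ (MulAction.stabilizer G u ⊓ MulAction.stabilizer G v)) ?_ F ?_⟩
  · rintro g ⟨hg, hgu, hgv⟩
    refine ⟨hgu, hgv, not_inf fun hi => ?_⟩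
    have hgL : g ∈ L := hDL hg
    have hgu' : g ∈ Sb L u := mem_Sb.2 ⟨hgu, hgL⟩
    have hgv' : g ∈ Sb L v := mem_Sb.2 ⟨hgv, hgL⟩
    refine h1q hT hact L ?_ hE u hgu' ?_ (hD ▸ hg)
    · intro a b hab x y h1 h2 h3 h4 h5 h6
      exact hEr a b hab x y h1.1 h2.1 h3.1 h4.1 h5 h6
    · intro k hk
      exact hE u v huv _ ((Sb L u).zpow_mem hgu' k) ((Sb L v).zpow_mem hgv' k) (hi.zpow hk)
  · intro g hg
    obtain ⟨h1, h2, h3⟩ := hF g hg
    exact ⟨(QuotientGroup.eq_one_iff g).1 h3, h1, h2⟩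

end h1

end Pool.Agent.N509.TX
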