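import Pool.Agent.N509.TX.Bal

/-!
# Edge groups whose elements of infinite order are commensurable
-/

set_option autoImplicit false

namespace Pool.Agent.N509.TX

open SimpleGraph
open Pool.Agent.Y110.FJ
open Pool.Agent.N509.TK
open Pool.Agent.R941.FJ (C_equiv C_le C_cyc mem_sup_normal)

variable {C : ∀ (G : Type) [Group G], Prop}

/-- the order of `x` is infinite -/
def Inf {G : Type} [Group G] (x : G) : Prop := ∀ n : ℤ, n ≠ 0 → x ^ n ≠ 1

section inf

variable {G : Type} [Group G]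

theorem Inf.zpow {x : G} (h : Inf x) {n : ℤ} (hn : n ≠ 0) : Inf (x ^ n) := by
  intro m hm h1
  rw [← zpow_mul] at h1
  exact h _ (mul_ne_zero hn hm) h1

theorem Inf.inj {x : G} (h : Inf x) {m n : ℤ} (hmn : x ^ m = x ^ n) : m = n := by
  by_contra hne
  refine h (m - n) (sub_ne_zero.2 hne) ?_
  rw [zpow_sub, hmn, mul_inv_cancel]

theorem Inf.conj {x : G} (h : Inf x) (g : G) : Inf (g * x * g⁻¹) := by
  intro n hn h1
  rw [conj_zpow] at h1
  refine h n hn ?_
  have h2 : x ^ n = g⁻¹ * (g * x ^ n * g⁻¹) * g := by group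
  rw [h2, h1]
  group

theorem Inf.of_map {H : Type} [Group H] (f : G →* H) {x : G} (h : Inf (f x)) : Inf x := by
  intro n hn h1
  refine h n hn ?_
  rw [← map_zpow, h1, map_one]

theorem Inf.map {H : Type} [Group H] (f : G →* H) (hf : Function.Injective f) {x : G} (h : Inf x) :
    Inf (f x) := by
  intro n hn h1
  rw [← map_zpow, map_eq_one_iff f hf] at h1
  exact h n hn h1

theorem not_inf {x : G} (h : ¬ Inf x) : ∃ m : ℤ, m ≠ 0 ∧ x ^ m = 1 := by
  unfold Inf at h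
  push Not at h
  exact h

end inf

/-- the elements of infinite order which fix `u` and `v` are commensurable -/
def Er (G : Type) {V : Type} [Group G] [MulAction G V] (u v : V) : Prop :=
  ∀ x y : G, x • u = u → x • v = v → y • u = u → y • v = v → Inf x → Inf y →
    ∃ a b : ℤ, a ≠ 0 ∧ b ≠ 0 ∧ x ^ a = y ^ b

/-- the subgroups of the stabilizer of `u` and `v` whose elements have finite order have at most `n`
elements -/
def Et (G : Type) {V : Type} [Group G] [MulAction G V] (n : ℕ) (u v : V) : Prop :=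
  ∀ S : Subgroup G, (∀ g ∈ S, g • u = u ∧ g • v = v ∧ ∃ m : ℤ, m ≠ 0 ∧ g ^ m = 1) →
    ∀ F : Finset G, (∀ g ∈ F, g ∈ S) → F.card ≤ n

/-- the relation of the edges at a vertex -/
def rI (G : Type) {V : Type} [Group G] [MulAction G V] (w a b : V) : Prop :=
  a = b ∨ ∃ x : G, Inf x ∧ x • w = w ∧ x • a = a ∧ x • b = b

variable {G V : Type} [Group G] [MulAction G V] {T : SimpleGraph V}

theorem conj_fix {x : G} {v : V} (g : G) (h : x • v = v) : (g * x * g⁻¹) • g • v = g • v := by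
  rw [mul_smul, inv_smul_smul, mul_smul, h]

theorem rI_LR (hE : ∀ u v : V, T.Adj u v → Er G u v) : LR G T (rI G) := by
  refine ⟨fun w a _ => Or.inl rfl, ?_, ?_, ?_⟩
  · rintro w a b _ _ (rfl | ⟨x, h1, h2, h3, h4⟩)
    · exact Or.inl rfl
    · exact Or.inr ⟨x, h1, h2, h4, h3⟩
  · rintro w a b c ha hb hc (rfl | ⟨x, h1, h2, h3, h4⟩) h
    · exact h
    · rcases h with rfl | ⟨y, k1, k2, k3, k4⟩
      · exact Or.inr ⟨x, h1, h2, h3, h4⟩
      · obtain ⟨m, n, hm, hn, hmn⟩ := hE w b hb x y h2 h4 k2 k3 h1 k1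
        refine Or.inr ⟨x ^ m, h1.zpow hm, zpow_fix h2 m, zpow_fix h3 m, ?_⟩
        rw [hmn]
        exact zpow_fix k4 n
  · rintro g w a b (rfl | ⟨x, h1, h2, h3, h4⟩)
    · exact Or.inl rfl
    · exact Or.inr ⟨g * x * g⁻¹, h1.conj g, conj_fix g h2, conj_fix g h3, conj_fix g h4⟩

/-- commensurable edge stabilizers -/
def CmI (G : Type) {V : Type} [Group G] [MulAction G V] (p q : V × V) : Prop :=
  ((p = q ∨ p = q.swap) ∧ ∀ x : G, x • p.1 = p.1 → x • p.2 = p.2 → ¬ Inf x) ∨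
  ∃ x : G, Inf x ∧ x • p.1 = p.1 ∧ x • p.2 = p.2 ∧ x • q.1 = q.1 ∧ x • q.2 = q.2

theorem CmI_refl (p : V × V) : CmI G p p := by
  by_cases h : ∀ x : G, x • p.1 = p.1 → x • p.2 = p.2 → ¬ Inf x
  · exact Or.inl ⟨Or.inl rfl, h⟩
  · push Not at h
    obtain ⟨x, h1, h2, h3⟩ := h
    exact Or.inr ⟨x, h3, h1, h2, h1, h2⟩

theorem CmI_gen (hE : ∀ u v : V, T.Adj u v → Er G u v) {p q : Dt T}
    (h : Relation.EqvGen (lk T (rI G)) p q) : CmI G p.1 q.1 := by
  induction h with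
  | rel p q h =>
    rcases h with h | ⟨h1, h2⟩
    · rcases CmI_refl (G := G) p.1 with ⟨_, h3⟩ | ⟨x, h3, h4, h5, _⟩
      · refine Or.inl ⟨Or.inr ?_, h3⟩
        rw [h, Prod.swap_swap]
      · refine Or.inr ⟨x, h3, h4, h5, ?_, ?_⟩
        · rw [h]
          exact h5
        · rw [h]
          exact h4
    · rcases h2 with h2 | ⟨x, h3, h4, h5, h6⟩
      · have h3 : p.1 = q.1 := Prod.ext h1 h2
        rw [h3]
        exact CmI_refl _
      · exact Or.inr ⟨x, h3, h4, h5, h1 ▸ h4, h6⟩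
  | refl x => exact CmI_refl _
  | symm p q _ ih =>
    rcases ih with ⟨h1, h2⟩ | ⟨x, h1, h2, h3, h4, h5⟩
    · rcases h1 with h1 | h1
      · exact Or.inl ⟨Or.inl h1.symm, h1 ▸ h2⟩
      · refine Or.inl ⟨Or.inr ?_, fun x hx hx' => h2 x ?_ ?_⟩
        · rw [h1, Prod.swap_swap]
        · rw [h1]
          exact hx'
        · rw [h1]
          exact hx
    · exact Or.inr ⟨x, h1, h4, h5, h2, h3⟩
  | trans p q s _ _ ih1 ih2 =>
    rcases ih1 with ⟨h1, h2⟩ | ⟨x, h1, h2, h3, h4, h5⟩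
    · rcases ih2 with ⟨k1, k2⟩ | ⟨y, k1, k2, k3, k4, k5⟩
      · refine Or.inl ⟨?_, h2⟩
        rcases h1 with h1 | h1 <;> rcases k1 with k1 | k1
        · exact Or.inl (h1.trans k1)
        · exact Or.inr (h1.trans k1)
        · right
          rw [h1, k1]
        · left
          rw [h1, k1, Prod.swap_swap]
      · rcases h1 with h1 | h1
        · exact absurd k1 (h2 y (h1 ▸ k2) (h1 ▸ k3))
        · refine absurd k1 (h2 y ?_ ?_)
          · rw [h1]
            exact k3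
          · rw [h1]
            exact k2
    · rcases ih2 with ⟨k1, k2⟩ | ⟨y, k1, k2, k3, k4, k5⟩
      · exact absurd h1 (k2 x h4 h5)
      · obtain ⟨m, n, hm, hn, hmn⟩ := hE _ _ q.2 x y h4 h5 k2 k3 h1 k1
        refine Or.inr ⟨x ^ m, h1.zpow hm, zpow_fix h2 m, zpow_fix h3 m, ?_, ?_⟩
        · rw [hmn]
          exact zpow_fix k4 n
        · rw [hmn]
          exact zpow_fix k5 n

/-- elements of infinite order in commensurable edge stabilizers have common powers -/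
theorem CmI_pow (hE : ∀ u v : V, T.Adj u v → Er G u v) {p q : Dt T} (h : CmI G p.1 q.1) {x y : G}
    (hx : x • p.1.1 = p.1.1) (hx' : x • p.1.2 = p.1.2) (hy : y • q.1.1 = q.1.1)
    (hy' : y • q.1.2 = q.1.2) (hx1 : Inf x) (hy1 : Inf y) :
    ∃ a b : ℤ, a ≠ 0 ∧ b ≠ 0 ∧ x ^ a = y ^ b := by
  rcases h with ⟨_, h1⟩ | ⟨t, h1, h2, h3, h4, h5⟩
  · exact absurd hx1 (h1 x hx hx')
  · obtain ⟨a, b, ha, hb, hab⟩ := hE _ _ p.2 x t hx hx' h2 h3 hx1 h1
    obtain ⟨c, d, hc, hd, hcd⟩ := hE _ _ q.2 t y h4 h5 hy hy' h1 hy1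
    refine ⟨a * c, d * b, mul_ne_zero ha hc, mul_ne_zero hd hb, ?_⟩
    rw [zpow_mul, hab, ← zpow_mul, mul_comm b c, zpow_mul, hcd, ← zpow_mul]

/-- the structure of a cylinder -/
theorem cyl_data (hE : ∀ u v : V, T.Adj u v → Er G u v)
    (hact : ∀ (g : G) (u v : V), T.Adj u v → T.Adj (g • u) (g • v)) {v0 a0 : V} (h0 : T.Adj v0 a0)
    {z : G} (hz : Inf z) (hzv : z • v0 = v0) (hza : z • a0 = a0) :
    (∀ g : G, Pres hact (cy (rI G) h0) g → ∃ m k : ℤ, m ≠ 0 ∧ k ≠ 0 ∧ g * z ^ m * g⁻¹ = z ^ k) ∧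
    ∀ (v u : V) (h : T.Adj v u), cy (rI G) h = cy (rI G) h0 →
      ∃ n : ℤ, n ≠ 0 ∧ z ^ n • v = v ∧ z ^ n • u = u := by
  have hgen : ∀ {v u : V} (h : T.Adj v u), cy (rI G) h = cy (rI G) h0 → CmI G (v0, a0) (v, u) :=
    fun {v u} h hvu => CmI_gen (p := dt h0) (q := dt h) hE (Quotient.exact hvu.symm)
  constructor
  · intro g hg
    have h1 := hg v0 a0 h0 rfl
    have h2 := hgen _ h1
    obtain ⟨a, b, ha, hb, hab⟩ := CmI_pow (p := dt h0) (q := dt (hact g v0 a0 h0)) hE h2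
      (x := z) (y := g * z * g⁻¹) hzv hza (conj_fix g hzv) (conj_fix g hza) hz (hz.conj g)
    refine ⟨b, a, hb, ha, ?_⟩
    rw [hab, conj_zpow]
  · intro v u h hvu
    rcases hgen h hvu with ⟨_, h2⟩ | ⟨t, h1, h2, h3, h4, h5⟩
    · exact absurd hz (h2 z hzv hza)
    · obtain ⟨m, k, hm, hk, hmk⟩ := hE _ _ h0 z t hzv hza h2 h3 hz h1
      refine ⟨m, hm, ?_, ?_⟩
      · rw [hmk]
        exact zpow_fix h4 k
      · rw [hmk]
        exact zpow_fix h5 k

/-- the theorem on cylinders for finitely generated groups -/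
theorem cylI_fg (hC : ClosedE C) (hA : AcylF C) (hfg : Group.FG G) (hT : T.IsTree)
    (hact : ∀ (g : G) (u v : V), T.Adj u v → T.Adj (g • u) (g • v))
    (hE : ∀ u v : V, T.Adj u v → Er G u v) (n : ℕ) (hn : ∀ u v : V, T.Adj u v → Et G n u v)
    (hV : ∀ v : V, C ↥(MulAction.stabilizer G v))
    (hY : ∀ (v0 a0 : V) (h0 : T.Adj v0 a0) (z : G), Inf z → z • v0 = v0 → z • a0 = a0 →
      ∀ K : Subgroup G, (∀ g ∈ K, Pres hact (cy (rI G) h0) g) → z ∈ K → C K) : C G := by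
  refine cylF_fg hC hA hfg hT hact (rI_LR hE) n ?_ hV ?_
  · intro w a b ha hb hab F hF
    refine hn w a ha (MulAction.stabilizer G w ⊓ (MulAction.stabilizer G a ⊓
      MulAction.stabilizer G b)) ?_ F ?_
    · rintro g ⟨h1, h2, h3⟩
      refine ⟨h1, h2, not_inf fun h4 => hab (Or.inr ⟨g, h4, h1, h2, h3⟩)⟩
    · intro g hg
      obtain ⟨h1, h2, h3⟩ := hF g hg
      exact ⟨h1, h2, h3⟩
  · intro y K hK
    obtain ⟨⟨⟨v0, a0⟩, h0⟩, hy⟩ := Quotient.exists_rep y
    have h0 : T.Adj v0 a0 := h0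
    have hy : cy (rI G) h0 = y := hy
    subst hy
    by_cases hz : ∃ z : G, Inf z ∧ z • v0 = v0 ∧ z • a0 = a0
    · obtain ⟨z, hz, hzv, hza⟩ := hz
      have hK' : ∀ g ∈ K ⊔ Subgroup.zpowers z, Pres hact (cy (rI G) h0) g := by
        let _ := cyAct hact (rI_LR hE)
        have hcy : ∀ (g : G) {v a : V} (h : T.Adj v a), g • (cy (rI G) h) =
            cy (rI G) (hact g v a h) := fun g {v a} h => rfl
        have h1 : ∀ g : G, Pres hact (cy (rI G) h0) g ↔
            g ∈ MulAction.stabilizer G (cy (T := T) (rI G) h0) := by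
          intro g
          constructor
          · intro h
            exact h v0 a0 h0 rfl
          · intro h v a hva heq
            rw [← hcy g hva, heq]
            exact h
        have h2 : K ⊔ Subgroup.zpowers z ≤ MulAction.stabilizer G (cy (T := T) (rI G) h0) := by
          refine sup_le (fun g hg => (h1 g).1 (hK g hg)) ?_
          rw [Subgroup.zpowers_le]
          show z • (cy (rI G) h0) = cy (rI G) h0
          rw [hcy]
          exact cy_congr _ _ hzv hza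
        intro g hg
        exact (h1 g).2 (h2 hg)
      exact C_le hC.base le_sup_left (hY v0 a0 h0 z hz hzv hza _ hK'
        (Subgroup.mem_sup_right (Subgroup.mem_zpowers z)))
    · push Not at hz
      refine C_edge hC v0 a0 (hV v0) K fun g hg => ?_
      have h1 := hK g hg v0 a0 h0 rfl
      rcases CmI_gen (p := dt (hact g v0 a0 h0)) (q := dt h0) hE (Quotient.exact h1) with
        ⟨h, _⟩ | ⟨t, h2, _, _, h3, h4⟩
      · rcases h with h | h
        · exact Or.inl ⟨congrArg Prod.fst h, congrArg Prod.snd h⟩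
        · exact Or.inr ⟨congrArg Prod.fst h, congrArg Prod.snd h⟩
      · exact absurd h4 (hz t h2 h3)

end Pool.Agent.N509.TX
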