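import Pool.Agent.N509.TX.BalC

/-!
# Virtually cyclic groups
-/

set_option autoImplicit false

namespace Pool.Agent.N509.TX

open Pool.Agent.Y110.FJ
open Pool.Agent.N509.TK
open Pool.Agent.R941.FJ (C_equiv C_le C_cyc mem_sup_normal)

/-- virtually cyclic groups -/
def VC (Q : Type) [Group Q] : Prop := ∃ c : Q, (Subgroup.zpowers c).index ≠ 0

section vc

variable {Q : Type} [Group Q]

theorem exists_mem_zpow {c : Q} (h : (Subgroup.zpowers c).index ≠ 0) (x : Q) :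
    ∃ i k : ℤ, i ≠ 0 ∧ x ^ i = c ^ k := by
  obtain ⟨n, hn, _, k, hk⟩ := Subgroup.exists_pow_mem_of_index_ne_zero h x
  refine ⟨n, k, by exact_mod_cast hn.ne', ?_⟩
  rw [zpow_natCast]
  exact hk.symm

theorem VC.comm (hQ : VC Q) {x y : Q} (hx : Inf x) (hy : Inf y) :
    ∃ a b : ℤ, a ≠ 0 ∧ b ≠ 0 ∧ x ^ a = y ^ b := by
  obtain ⟨c, hc⟩ := hQ
  obtain ⟨i, k, hi, hik⟩ := exists_mem_zpow hc x
  obtain ⟨j, l, hj, hjl⟩ := exists_mem_zpow hc y
  have hk : k ≠ 0 := by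
    rintro rfl
    rw [zpow_zero] at hik
    exact hx i hi hik
  have hl : l ≠ 0 := by
    rintro rfl
    rw [zpow_zero] at hjl
    exact hy j hj hjl
  refine ⟨i * l, j * k, mul_ne_zero hi hl, mul_ne_zero hj hk, ?_⟩
  rw [zpow_mul, hik, zpow_mul, hjl, ← zpow_mul, ← zpow_mul, mul_comm]

theorem conj_iter {g X : Q} {m n : ℤ} (h : g * X ^ m * g⁻¹ = X ^ n) (j : ℕ) :
    g ^ j * X ^ (m ^ j) * (g ^ j)⁻¹ = X ^ (n ^ j) := by
  induction j with
  | zero => simp
  | succ j ih =>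
    have h1 : g ^ (j + 1) * X ^ (m ^ (j + 1)) * (g ^ (j + 1))⁻¹ =
        g * (g ^ j * (X ^ (m ^ j)) ^ m * (g ^ j)⁻¹) * g⁻¹ := by
      rw [← zpow_mul, ← pow_succ, pow_succ' g j]
      group
    rw [h1, ← conj_zpow, ih, ← zpow_mul, mul_comm, zpow_mul, ← conj_zpow, h, ← zpow_mul]
    congr 1
    ring

theorem VC.bal (hQ : VC Q) {x g : Q} (hx : Inf x) {m n : ℤ} (h : g * x ^ m * g⁻¹ = x ^ n) :
    |m| = |n| := by
  obtain ⟨c, hc⟩ := hQ
  obtain ⟨i, k, hi, hik⟩ := exists_mem_zpow hc x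
  obtain ⟨j, hj, _, l, hl⟩ := Subgroup.exists_pow_mem_of_index_ne_zero hc g
  have h1 : g * (x ^ i) ^ m * g⁻¹ = (x ^ i) ^ n := by
    rw [← zpow_mul, mul_comm i m, zpow_mul, ← conj_zpow, h, ← zpow_mul, ← zpow_mul, mul_comm]
  have h2 := conj_iter h1 j
  have h3 : Commute (g ^ j) (x ^ i) := by
    rw [hik]
    have h4 : g ^ j = c ^ l := hl.symm
    rw [h4]
    exact (Commute.refl c).zpow_zpow l k
  rw [(h3.zpow_right (m ^ j)).eq, mul_inv_cancel_right] at h2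
  have h5 := (hx.zpow hi).inj h2
  have h6 : |m| ^ j = |n| ^ j := by rw [← abs_pow, ← abs_pow, h5]
  exact (pow_left_inj₀ (abs_nonneg _) (abs_nonneg _) hj.ne').1 h6

theorem VC.tors (hQ : VC Q) : ∃ B : ℕ, ∀ S : Subgroup Q, (∀ g ∈ S, ∃ m : ℤ, m ≠ 0 ∧ g ^ m = 1) →
    ∀ F : Finset Q, (∀ g ∈ F, g ∈ S) → F.card ≤ B := by
  classical
  obtain ⟨c, hc⟩ := hQ
  have hfi : (Subgroup.zpowers c).FiniteIndex := ⟨hc⟩
  have hfin : Finite (Q ⧸ Subgroup.zpowers c) := Subgroup.finiteIndex_iff_finite_quotient.1 hfi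
  have := Fintype.ofFinite (Q ⧸ Subgroup.zpowers c)
  by_cases hi : Inf c
  · refine ⟨Fintype.card (Q ⧸ Subgroup.zpowers c), fun S hS F hF => ?_⟩
    rw [← Finset.card_univ]
    refine Finset.card_le_card_of_injOn (fun q => (q : Q ⧸ Subgroup.zpowers c))
      (fun _ _ => Finset.mem_coe.2 (Finset.mem_univ _)) ?_
    intro x hx y hy hxy
    obtain ⟨i, hi'⟩ := QuotientGroup.eq.1 hxy
    have h1 : x⁻¹ * y ∈ S := mul_mem (inv_mem (hF x hx)) (hF y hy)
    obtain ⟨m, hm, h2⟩ := hS _ h1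
    have h3 : c ^ i = x⁻¹ * y := hi'
    rw [← h3, ← zpow_mul] at h2
    have h4 : i * m = 0 := by
      by_contra h5
      exact hi _ h5 h2
    rcases mul_eq_zero.1 h4 with h5 | h5
    · rw [h5, zpow_zero] at h3
      exact (inv_mul_eq_one.1 h3.symm)
    · exact absurd h5 hm
  · obtain ⟨m, hm, h1⟩ := not_inf hi
    have h2 : IsOfFinOrder c := isOfFinOrder_iff_zpow_eq_one.2 ⟨m, hm, h1⟩
    have h3 : Finite (Subgroup.zpowers c) := (finite_zpowers.2 h2).to_subtype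
    have h4 : Finite Q := by
      have e := Subgroup.groupEquivQuotientProdSubgroup (s := Subgroup.zpowers c)
      exact Finite.of_equiv _ e.symm
    have := Fintype.ofFinite Q
    exact ⟨Fintype.card Q, fun S _ F _ => Finset.card_le_univ F⟩

theorem VC.index (hQ : VC Q) {x : Q} (hx : Inf x) : (Subgroup.zpowers x).index ≠ 0 := by
  obtain ⟨c, hc⟩ := hQ
  obtain ⟨i, k, hi, hik⟩ := exists_mem_zpow hc x
  have hk : k ≠ 0 := by
    rintro rfl
    rw [zpow_zero] at hik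
    exact hx i hi hik
  have h1 : (Subgroup.zpowers (c ^ k)).index ≠ 0 := by
    have h2 := relIndex_zpow c k hk ⊤ (by rwa [Subgroup.relIndex_top_right])
    rwa [Subgroup.relIndex_top_right] at h2
  intro h2
  apply h1
  have h3 : Subgroup.zpowers (c ^ k) ≤ Subgroup.zpowers x := by
    rw [Subgroup.zpowers_le, ← hik]
    exact ⟨i, rfl⟩
  have h4 := Subgroup.index_dvd_of_le h3
  rw [h2] at h4
  exact Nat.eq_zero_of_zero_dvd h4

end vc

section kernel

variable {G Q : Type} [Group G] [Group Q]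

theorem fin_of_bdd {X : Type} (A : Set X) (n : ℕ) (h : ∀ F : Finset X, (∀ x ∈ F, x ∈ A) → F.card ≤ n) :
    A.Finite := by
  by_contra hA
  obtain ⟨F, hF, hc⟩ := Set.Infinite.exists_subset_card_eq hA (n + 1)
  have := h F fun x hx => hF hx
  omega

variable (π : G →* Q) (E : Subgroup G) (n : ℕ)
  (hn : ∀ F : Finset G, (∀ g ∈ F, g ∈ E ∧ π g = 1) → F.card ≤ n)

include hn

theorem map_inf {x : G} (hx : x ∈ E) (hi : Inf x) : Inf (π x) := by
  classical
  intro k hk h1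
  let w : ℕ → G := fun j => x ^ (k * j)
  have hw : Function.Injective w := by
    intro i j hij
    have h2 := hi.inj hij
    have h3 := mul_left_cancel₀ hk h2
    exact_mod_cast h3
  have h2 := hn ((Finset.range (n + 1)).image w) (by
    intro g hg
    obtain ⟨j, _, rfl⟩ := Finset.mem_image.1 hg
    refine ⟨E.zpow_mem hx _, ?_⟩
    show π (x ^ (k * (j : ℤ))) = 1
    rw [map_zpow, zpow_mul, h1, one_zpow])
  rw [Finset.card_image_of_injective _ hw, Finset.card_range] at h2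
  omega

theorem lift_comm (hQ : VC Q) {x y : G} (hx : x ∈ E) (hy : y ∈ E) (hxi : Inf x) (hyi : Inf y) :
    ∃ a b : ℤ, a ≠ 0 ∧ b ≠ 0 ∧ x ^ a = y ^ b := by
  classical
  obtain ⟨a, b, ha, hb, hab⟩ := hQ.comm (map_inf π E n hn hx hxi) (map_inf π E n hn hy hyi)
  let w : ℕ → G := fun j => x ^ (a * j) * y ^ (-(b * j))
  have h1 := hn ((Finset.range (n + 1)).image w) (by
    intro g hg
    obtain ⟨j, _, rfl⟩ := Finset.mem_image.1 hg
    refine ⟨E.mul_mem (E.zpow_mem hx _) (E.zpow_mem hy _), ?_⟩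
    show π (x ^ (a * (j : ℤ)) * y ^ (-(b * (j : ℤ)))) = 1
    rw [map_mul, map_zpow, map_zpow, zpow_mul, hab, ← zpow_mul, ← zpow_add, add_neg_cancel, zpow_zero])
  have h2 : ¬ Set.InjOn w (Finset.range (n + 1)) := by
    intro h
    rw [Finset.card_image_of_injOn h, Finset.card_range] at h1
    omega
  unfold Set.InjOn at h2
  push Not at h2
  obtain ⟨i, _, j, _, hij, hne⟩ := h2
  have hne' : (i : ℤ) - j ≠ 0 := by
    intro h
    apply hne
    have : (i : ℤ) = j := by omega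
    exact_mod_cast this
  refine ⟨a * ((i : ℤ) - j), b * ((i : ℤ) - j), mul_ne_zero ha hne', mul_ne_zero hb hne', ?_⟩
  have h3 : x ^ (a * (i : ℤ)) * y ^ (-(b * (i : ℤ))) = x ^ (a * (j : ℤ)) * y ^ (-(b * (j : ℤ))) := hij
  have h4 : x ^ (a * ((i : ℤ) - j)) = (x ^ (a * (j : ℤ)))⁻¹ * x ^ (a * (i : ℤ)) := by
    rw [← zpow_neg, ← zpow_add]
    congr 1
    ring
  have h5 : y ^ (b * ((i : ℤ) - j)) = y ^ (-(b * (j : ℤ))) * (y ^ (-(b * (i : ℤ))))⁻¹ := by
    rw [← zpow_neg, ← zpow_add]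
    congr 1
    ring
  rw [h4, h5, inv_mul_eq_iff_eq_mul, ← mul_assoc, ← h3, mul_inv_cancel_right]

theorem lift_tors (hQ : VC Q) : ∃ B : ℕ, ∀ S : Subgroup G, S ≤ E →
    (∀ g ∈ S, ∃ m : ℤ, m ≠ 0 ∧ g ^ m = 1) → ∀ F : Finset G, (∀ g ∈ F, g ∈ S) → F.card ≤ n * B := by
  classical
  obtain ⟨B, hB⟩ := hQ.tors
  refine ⟨B, fun S hSE hS F hF => ?_⟩
  have h1 : (F.image π).card ≤ B := by
    refine hB (S.map π) ?_ _ ?_
    · rintro _ ⟨g, hg, rfl⟩
      obtain ⟨m, hm, h⟩ := hS g hg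
      exact ⟨m, hm, by rw [← map_zpow, h, map_one]⟩
    · intro q hq
      obtain ⟨g, hg, rfl⟩ := Finset.mem_image.1 hq
      exact ⟨g, hF g hg, rfl⟩
  have h2 : F.card ≤ n * (F.image π).card := by
    refine Finset.card_le_mul_card_image F n ?_
    intro q hq
    obtain ⟨g0, hg0, rfl⟩ := Finset.mem_image.1 hq
    have h3 := hn ((F.filter fun x => π x = π g0).image fun x => g0⁻¹ * x) (by
      intro g hg
      obtain ⟨x, hx, rfl⟩ := Finset.mem_image.1 hg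
      obtain ⟨hx1, hx2⟩ := Finset.mem_filter.1 hx
      refine ⟨E.mul_mem (E.inv_mem (hSE (hF _ hg0))) (hSE (hF _ hx1)), ?_⟩
      rw [map_mul, map_inv, hx2, inv_mul_cancel])
    rwa [Finset.card_image_of_injective _ (mul_right_injective g0⁻¹)] at h3
  exact h2.trans (Nat.mul_le_mul_left n h1)

theorem lift_index (hQ : VC Q) {t : G} (ht : t ∈ E) (hi : Inf t) :
    (Subgroup.zpowers t).relIndex E ≠ 0 := by
  have hpt := map_inf π E n hn ht hi
  obtain ⟨A, hA⟩ : ∃ A : Subgroup G, A = (Subgroup.zpowers (π t)).comap π ⊓ E := ⟨_, rfl⟩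
  have h1 : A.relIndex E ≠ 0 := by
    rw [hA, Subgroup.inf_relIndex_right, Subgroup.relIndex_comap]
    intro h2
    have h3 := Subgroup.relIndex_eq_zero_of_le_right (le_top : E.map π ≤ ⊤) h2
    rw [Subgroup.relIndex_top_right] at h3
    exact hQ.index hpt h3
  refine Subgroup.relIndex_ne_zero_trans ?_ h1
  have hN : {g : G | g ∈ E ∧ π g = 1}.Finite := fin_of_bdd _ n hn
  have hN' : Finite {g : G | g ∈ E ∧ π g = 1} := hN
  have hNA : ∀ g : {g : G | g ∈ E ∧ π g = 1}, (g : G) ∈ A := by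
    rintro ⟨g, hg, hg'⟩
    rw [hA]
    refine ⟨?_, hg⟩
    show π g ∈ Subgroup.zpowers (π t)
    rw [hg']
    exact Subgroup.one_mem _
  have hfin : Finite (A ⧸ (Subgroup.zpowers t).subgroupOf A) := by
    refine Finite.of_surjective (fun g : {g : G | g ∈ E ∧ π g = 1} =>
      (QuotientGroup.mk (⟨g, hNA g⟩ : A) : A ⧸ (Subgroup.zpowers t).subgroupOf A)) fun q => ?_
    obtain ⟨⟨a, ha⟩, rfl⟩ := QuotientGroup.mk_surjective q
    have ha' := ha
    rw [hA] at ha'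
    obtain ⟨⟨i, h2⟩, h3⟩ := ha'
    refine ⟨⟨a * (t ^ i)⁻¹, E.mul_mem h3 (E.inv_mem (E.zpow_mem ht i)), ?_⟩, ?_⟩
    · have h4 : (π t) ^ i = π a := h2
      rw [map_mul, map_inv, map_zpow, h4, mul_inv_cancel]
    · refine QuotientGroup.eq.2 ?_
      rw [Subgroup.mem_subgroupOf]
      refine ⟨i, ?_⟩
      show t ^ i = (a * (t ^ i)⁻¹)⁻¹ * a
      group
  exact (Subgroup.finiteIndex_iff_finite_quotient.2 hfin).index_ne_zero

end kernel

end Pool.Agent.N509.TX
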